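import Pool.Agent.Run7.h550.PK.Main

/-!
# Direct decompositions of products of centreless indecomposable groups (helper550)
-/

set_option autoImplicit false

namespace Run7.h550.PK

open Pool.Agent.Y110.FJ Run7.h550.TK

variable {N V : Type} [Group N] {Γ : SimpleGraph V} {A : V → Subgroup N}

/-- the projections of an internal direct product -/
theorem exists_proj {P Q : Subgroup N} (hsup : P ⊔ Q = ⊤) (hinf : P ⊓ Q = ⊥)
    (hcomm : ∀ a ∈ P, ∀ b ∈ Q, a * b = b * a) : ∃ (p q : N →* N), (∀ x, p x ∈ P) ∧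
      (∀ x, q x ∈ Q) ∧ (∀ x, x = p x * q x) ∧ (∀ x ∈ P, p x = x) ∧ (∀ x ∈ Q, p x = 1) := by
  have hex : ∀ x : N, ∃ a ∈ P, ∃ b ∈ Q, x = a * b := by
    intro x
    obtain ⟨F, hF⟩ : ∃ F : ↥P × ↥Q →* N, ∀ p, F p = (p.1 : N) * (p.2 : N) :=
      ⟨MonoidHom.noncommCoprod P.subtype Q.subtype (fun a b => hcomm a a.2 b b.2), fun p => rfl⟩
    have h3 : P ⊔ Q ≤ F.range := by
      refine sup_le (fun y hy => ?_) (fun y hy => ?_)
      · refine ⟨(⟨y, hy⟩, 1), ?_⟩
        rw [hF]
        exact mul_one y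
      · refine ⟨(1, ⟨y, hy⟩), ?_⟩
        rw [hF]
        exact one_mul y
    have hx : x ∈ P ⊔ Q := by
      rw [hsup]
      exact Subgroup.mem_top x
    obtain ⟨⟨a, b⟩, hab⟩ := h3 hx
    exact ⟨a, a.2, b, b.2, by rw [← hab, hF]⟩
  have huniq : ∀ a ∈ P, ∀ b ∈ Q, ∀ a' ∈ P, ∀ b' ∈ Q, a * b = a' * b' → a = a' ∧ b = b' := by
    intro a ha b hb a' ha' b' hb' h
    have h1 : a'⁻¹ * a = b' * b⁻¹ := by
      have h2 : a'⁻¹ * (a * b) * b⁻¹ = a'⁻¹ * (a' * b') * b⁻¹ := by rw [h]
      have h3 : a'⁻¹ * (a * b) * b⁻¹ = a'⁻¹ * a := by group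
      have h4 : a'⁻¹ * (a' * b') * b⁻¹ = b' * b⁻¹ := by group
      rw [h3, h4] at h2
      exact h2
    have h2 : a'⁻¹ * a ∈ P ⊓ Q := by
      refine ⟨P.mul_mem (P.inv_mem ha') ha, ?_⟩
      rw [h1]
      exact Q.mul_mem hb' (Q.inv_mem hb)
    rw [hinf, Subgroup.mem_bot] at h2
    have h3 : a = a' := (inv_mul_eq_one.1 h2).symm
    refine ⟨h3, ?_⟩
    rw [h3] at h
    exact mul_left_cancel h
  choose p hp q hq hpq using hex
  obtain ⟨p', hp'⟩ : ∃ p' : N →* N, ∀ x, p' x = p x := by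
    refine ⟨{ toFun := p, map_one' := ?_, map_mul' := fun x y => ?_ }, fun x => rfl⟩
    · refine (huniq _ (hp 1) _ (hq 1) 1 (one_mem _) 1 (one_mem _) ?_).1
      rw [← hpq 1, one_mul]
    · refine (huniq _ (hp (x * y)) _ (hq (x * y)) _ (P.mul_mem (hp x) (hp y)) _
        (Q.mul_mem (hq x) (hq y)) ?_).1
      rw [← hpq (x * y)]
      conv_lhs => rw [hpq x, hpq y]
      have h1 := hcomm _ (hp y) _ (hq x)
      calc p x * q x * (p y * q y) = p x * (q x * p y) * q y := by group
        _ = p x * (p y * q x) * q y := by rw [h1]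
        _ = p x * p y * (q x * q y) := by group
  obtain ⟨q', hq'⟩ : ∃ q' : N →* N, ∀ x, q' x = q x := by
    refine ⟨{ toFun := q, map_one' := ?_, map_mul' := fun x y => ?_ }, fun x => rfl⟩
    · refine (huniq _ (hp 1) _ (hq 1) 1 (one_mem _) 1 (one_mem _) ?_).2
      rw [← hpq 1, one_mul]
    · refine (huniq _ (hp (x * y)) _ (hq (x * y)) _ (P.mul_mem (hp x) (hp y)) _
        (Q.mul_mem (hq x) (hq y)) ?_).2
      rw [← hpq (x * y)]
      conv_lhs => rw [hpq x, hpq y]
      have h1 := hcomm _ (hp y) _ (hq x)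
      calc p x * q x * (p y * q y) = p x * (q x * p y) * q y := by group
        _ = p x * (p y * q x) * q y := by rw [h1]
        _ = p x * p y * (q x * q y) := by group
  refine ⟨p', q', fun x => hp' x ▸ hp x, fun x => hq' x ▸ hq x, fun x => ?_, fun x hx => ?_,
    fun x hx => ?_⟩
  · rw [hp', hq']
    exact hpq x
  · rw [hp']
    refine (huniq _ (hp x) _ (hq x) x hx 1 (one_mem _) ?_).1
    rw [← hpq x, mul_one]
  · rw [hp']
    refine (huniq _ (hp x) _ (hq x) 1 (one_mem _) x hx ?_).1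
    rw [← hpq x, one_mul]

/-- **an indecomposable direct factor of a product of centreless indecomposable groups is one of
the given factors** -/
theorem factor_eq [Finite V] (h : IsGraphProduct Γ A) (hcomp : ∀ u w, u ≠ w → Γ.Adj u w)
    (hz : ∀ v, Centreless (A v)) (hi : ∀ v, Indec (A v)) (hne : ∀ v, A v ≠ ⊥)
    {P Q : Subgroup N} (hsup : P ⊔ Q = ⊤) (hinf : P ⊓ Q = ⊥)
    (hcomm : ∀ a ∈ P, ∀ b ∈ Q, a * b = b * a) (hP : Indec P) (hPne : P ≠ ⊥) :
    ∃ u, P = A u := by
  obtain ⟨p, q, p1, p2, p3, p4, p5⟩ := exists_proj hsup hinf hcomm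
  have hq1 : ∀ x ∈ Q, q x = x := by
    intro x hx
    have := p3 x
    rw [p5 x hx, one_mul] at this
    exact this.symm
  -- the projections preserve the factors
  have claim : ∀ u, ∀ x ∈ A u, p x ∈ A u := by
    intro u x hx
    obtain ⟨p', q', h1, h2, h3, h4, h5, h6⟩ := exists_split h hcomp u
    have hc1 : ∀ s ∈ NS A ({u}ᶜ : Set V), p x * s = s * p x := by
      intro s hs
      have e2 := congrArg p (h6 x hx s hs)
      rw [map_mul, map_mul] at e2
      have e3 := hcomm _ (p1 x) _ (p2 s)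
      calc p x * s = p x * (p s * q s) := by rw [← p3]
        _ = (p x * p s) * q s := by group
        _ = p s * (p x * q s) := by rw [e2]; group
        _ = (p s * q s) * p x := by rw [e3]; group
        _ = s * p x := by rw [← p3]
    have hc3 : q' (p x) = 1 := by
      refine centreless_dp h hcomp hz _ fun s => ?_
      have e2 := congrArg q' (hc1 _ (h2 s))
      rw [map_mul, map_mul, h5 _ (h2 s)] at e2
      have e3 := h6 _ (h1 s) _ (h2 (p x))
      calc q' (p x) * s = q' (p x) * (p' s * q' s) := by rw [← h3]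
        _ = (q' (p x) * p' s) * q' s := by group
        _ = p' s * (q' (p x) * q' s) := by rw [← e3]; group
        _ = (p' s * q' s) * q' (p x) := by rw [e2]; group
        _ = s * q' (p x) := by rw [← h3]
    have e4 := h3 (p x)
    rw [hc3, mul_one] at e4
    rw [e4]
    exact h1 _
  -- each factor is contained in `P` or in `Q`
  have hor : ∀ u, A u ≤ P ∨ A u ≤ Q := by
    intro u
    have hsplit : ∀ y : A u, ∃ a ∈ P.subgroupOf (A u), ∃ b ∈ Q.subgroupOf (A u), y = a * b := by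
      rintro ⟨y, hy⟩
      have h1 : (p y)⁻¹ * y = q y := by
        conv_lhs => rw [p3 y]
        have e2 : p (p y * q y) = p y := by rw [← p3]
        rw [e2]
        group
      refine ⟨⟨p y, claim u y hy⟩, p1 y, ⟨(p y)⁻¹ * y,
        (A u).mul_mem ((A u).inv_mem (claim u y hy)) hy⟩, ?_, ?_⟩
      · show (p y)⁻¹ * y ∈ Q
        rw [h1]
        exact p2 y
      · apply Subtype.ext
        show y = p y * ((p y)⁻¹ * y)
        group
    rcases hi u (P.subgroupOf (A u)) (Q.subgroupOf (A u)) (by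
        rw [eq_top_iff]
        intro y _
        obtain ⟨a, ha, b, hb, rfl⟩ := hsplit y
        exact Subgroup.mul_mem _ (Subgroup.mem_sup_left ha) (Subgroup.mem_sup_right hb)) (by
        rw [eq_bot_iff]
        rintro y ⟨hy1, hy2⟩
        have h1 : (y : N) ∈ P ⊓ Q := ⟨hy1, hy2⟩
        rw [hinf] at h1
        exact Subtype.ext h1) (fun a ha b hb => Subtype.ext (hcomm _ ha _ hb)) with h1 | h1
    · right
      intro x hx
      obtain ⟨a, ha, b, hb, hab⟩ := hsplit ⟨x, hx⟩
      rw [h1, Subgroup.mem_bot] at ha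
      rw [ha, one_mul] at hab
      rw [← hab] at hb
      exact hb
    · left
      intro x hx
      obtain ⟨a, ha, b, hb, hab⟩ := hsplit ⟨x, hx⟩
      rw [h1, Subgroup.mem_bot] at hb
      rw [hb, mul_one] at hab
      rw [← hab] at ha
      exact ha
  obtain ⟨u, hu⟩ : ∃ u, A u ≤ P := by
    by_contra hcon
    push Not at hcon
    apply hPne
    have h1 : (⊤ : Subgroup N) ≤ Q := by
      rw [← h.generate]
      exact iSup_le fun u => (hor u).resolve_left (hcon u)
    rw [eq_bot_iff, ← hinf]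
    exact fun x hx => ⟨hx, h1 (Subgroup.mem_top x)⟩
  refine ⟨u, le_antisymm ?_ hu⟩
  obtain ⟨p', q', h1, h2, h3, h4, h5, h6⟩ := exists_split h hcomp u
  have hq' : ∀ y ∈ P, q' y ∈ P := by
    intro y hy
    have e1 : q' y = (p' y)⁻¹ * y := by
      conv_rhs => rw [h3 y]
      have e2 : p' (p' y * q' y) = p' y := by rw [← h3]
      rw [e2]
      group
    rw [e1]
    exact P.mul_mem (P.inv_mem (hu (h1 y))) hy
  rcases hP ((A u).subgroupOf P) ((NS A ({u}ᶜ : Set V)).subgroupOf P) (by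
      rw [eq_top_iff]
      rintro ⟨y, hy⟩ _
      have e1 : (⟨y, hy⟩ : P) = ⟨p' y, hu (h1 y)⟩ * ⟨q' y, hq' y hy⟩ := Subtype.ext (h3 y)
      rw [e1]
      refine Subgroup.mul_mem _ (Subgroup.mem_sup_left ?_) (Subgroup.mem_sup_right ?_)
      · exact h1 y
      · exact h2 y) (by
      rw [eq_bot_iff]
      rintro ⟨y, hy⟩ ⟨hy1, hy2⟩
      have e1 := h3 y
      rw [h4 y hy1, h5 y hy2] at e1
      have e2 : y = 1 := by
        have e3 := congrArg (fun t => y⁻¹ * t) e1
        simpa using e3.symm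
      exact Subtype.ext e2) (fun a ha b hb => Subtype.ext (h6 _ ha _ hb)) with h7 | h7
  · exfalso
    rw [Subgroup.subgroupOf_eq_bot] at h7
    exact hne u (h7.eq_bot_of_le hu)
  · intro y hy
    have e1 : (⟨q' y, hq' y hy⟩ : P) ∈ (NS A ({u}ᶜ : Set V)).subgroupOf P := h2 y
    rw [h7, Subgroup.mem_bot] at e1
    have e2 : q' y = 1 := congrArg Subtype.val e1
    have e3 := h3 y
    rw [e2, mul_one] at e3
    rw [e3]
    exact h1 y

end Run7.h550.PK
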