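import Pool.Agent.Run7.h550.PK.Quot

/-!
# Extensions whose kernel is a graph product, with vertex groups permuted up to conjugacy in the
kernel (helper550)
-/

set_option autoImplicit false

namespace Run7.h550.PK

open Pool.Agent.Y110.FJ Run7.h550.TK
open Pool.Agent.Y462.SS (Closed)
open Pool.Agent.R684.FP (FbC free_ext cyc_real NC Rel Dat Ct regular mem_Ct mem_NC dec NC_conj
  Ct_normal)
open Pool.Agent.R941.FJ (C_equiv C_le C_cyc)

variable {C : ∀ (G : Type) [Group G], Prop}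
variable {G V : Type} [Group G] {N : Subgroup G} {Γ : SimpleGraph V} {A : V → Subgroup N}

/-- the elements of `G` permute the conjugacy classes in `N` of the vertex groups -/
def Perm [N.Normal] (A : V → Subgroup N) : Prop := ∀ g : G, ∃ σ : Equiv.Perm V, ∀ v,
  Sb A (MulAut.conjNormal g) {v} {σ v}

/-- the filtration in `G` -/
noncomputable def Kg (hA : PairSystem Γ A) (n : ℕ) : Subgroup G := (Kn hA n).map N.subtype

theorem mem_Kg {hA : PairSystem Γ A} {n : ℕ} {x : N} : (x : G) ∈ Kg hA n ↔ x ∈ Kn hA n := by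
  constructor
  · rintro ⟨y, hy, hyx⟩
    have : y = x := Subtype.ext hyx
    exact this ▸ hy
  · intro h
    exact ⟨x, h, rfl⟩

theorem Kg_le (hA : PairSystem Γ A) (n : ℕ) : Kg hA n ≤ N := by
  rintro _ ⟨y, -, rfl⟩
  exact y.2

theorem Kg_normal [N.Normal] (hA : PairSystem Γ A) (hp : Perm A) (n : ℕ) : (Kg hA n).Normal := by
  refine ⟨fun z hz g => ?_⟩
  obtain ⟨x, hx, rfl⟩ := hz
  obtain ⟨σ, h1⟩ := hp g
  refine ⟨MulAut.conjNormal g x, Kn_inv hA h1 hx, ?_⟩
  exact MulAut.conjNormal_apply g x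

/-- the homomorphism to the quotient -/
theorem exists_stp [N.Normal] (hA : PairSystem Γ A) (hp : Perm A) (n : ℕ)
    [(Kg hA (n + 1)).Normal] :
    Stp hA n ((QuotientGroup.mk' (Kg hA (n + 1))).comp N.subtype) := by
  refine ⟨fun x => ?_, fun g => ?_⟩
  · have h1 : ((QuotientGroup.mk' (Kg hA (n + 1))).comp N.subtype) x = 1 ↔
        (x : G) ∈ Kg hA (n + 1) := QuotientGroup.eq_one_iff _
    rw [h1, mem_Kg]
  · obtain ⟨a, rfl⟩ := QuotientGroup.mk'_surjective _ g
    obtain ⟨σ, h1⟩ := hp a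
    refine ⟨MulAut.conjNormal a, σ, h1, fun x => ?_⟩
    show _ = QuotientGroup.mk' (Kg hA (n + 1)) ((MulAut.conjNormal a x : N) : G)
    rw [MulAut.conjNormal_apply, map_mul, map_mul, map_inv]
    rfl

theorem one_step [N.Normal] (hC : ClosedE C) (hA : PairSystem Γ A) (hp : Perm A) (n : ℕ)
    [h1 : (Kg hA n).Normal] [h2 : (Kg hA (n + 1)).Normal]
    (hE : ∀ Δ : Finset V, Δ.card = n + 1 → Fd hA Δ ≠ ⊥ → Ext C ↥(Fd hA Δ))
    (hQ : C (G ⧸ Kg hA n)) : C (G ⧸ Kg hA (n + 1)) := by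
  classical
  have s := exists_stp hA hp n
  have hm : (Kn hA n).map ((QuotientGroup.mk' (Kg hA (n + 1))).comp N.subtype) =
      (Kg hA n).map (QuotientGroup.mk' (Kg hA (n + 1))) := by
    conv_rhs => arg 2; rw [Kg]
    rw [Subgroup.map_map]
  have hn : ((Kn hA n).map ((QuotientGroup.mk' (Kg hA (n + 1))).comp N.subtype)).Normal := s.nor
  have hn' : ((Kg hA n).map (QuotientGroup.mk' (Kg hA (n + 1)))).Normal := by
    rw [← hm]
    exact hn
  refine s.main hC hE ?_
  have hle : Kg hA (n + 1) ≤ Kg hA n := Subgroup.map_mono (Kn_anti hA (Nat.le_succ n))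
  have h3 : C ((G ⧸ Kg hA (n + 1)) ⧸ (Kg hA n).map (QuotientGroup.mk' (Kg hA (n + 1)))) :=
    C_equiv hC.base (QuotientGroup.quotientQuotientEquivQuotient (Kg hA (n + 1)) (Kg hA n) hle) hQ
  exact C_equiv hC.base (QuotientGroup.quotientMulEquivOfEq hm) h3

theorem exists_fin_set (hA : PairSystem Γ A) {F : Set N} (hF : F.Finite) :
    ∃ S : Finset V, ∀ x ∈ F, x ∈ NS A (↑S : Set V) := by
  classical
  induction F, hF using Set.Finite.induction_on with
  | empty => exact ⟨∅, fun x hx => absurd hx (Set.notMem_empty x)⟩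
  | @insert a F _ _ ih =>
    obtain ⟨S, hS⟩ := ih
    obtain ⟨T, hT⟩ := exists_fin hA a
    refine ⟨T ∪ S, ?_⟩
    rintro x (rfl | hx)
    · refine NS_mono ?_ hT
      rw [Finset.coe_union]
      exact Set.subset_union_left
    · refine NS_mono ?_ (hS x hx)
      rw [Finset.coe_union]
      exact Set.subset_union_right

/-- **from the first step to the group** -/
theorem from_one [N.Normal] (hC : ClosedE C) (hF : FbC C) (h : IsGraphProduct Γ A) (hp : Perm A)
    [hn1 : (Kg h.pairSystem 1).Normal] (hQ : C (G ⧸ Kg h.pairSystem 1)) : C G := by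
  classical
  have hall : ∀ n : ℕ, ∀ [(Kg h.pairSystem (n + 1)).Normal], C (G ⧸ Kg h.pairSystem (n + 1)) := by
    intro n
    induction n with
    | zero =>
      intro _
      exact hQ
    | succ n ih =>
      intro _
      have hn := Kg_normal h.pairSystem hp (n + 1)
      refine one_step hC h.pairSystem hp (n + 1) ?_ ih
      intro Δ hΔ hne
      refine ext_free hC hF (Fd_free h fun hc => hne (Fd_clique h hc (by omega)))
  refine Pool.Agent.R779.FJ.t_crit Pool.Agent.Y529.FJ.t_ext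
    (Pool.Agent.Y961.FJ.t_perm Pool.Agent.Y529.FJ.t_ext) C hC G (Kg h.pairSystem 1) hQ
    fun g E hE hEN => ?_
  obtain ⟨F, hFd⟩ : ∃ F : Set G, F = E ∪ (fun x => g * x * g⁻¹) '' E := ⟨_, rfl⟩
  have hFf : F.Finite := by
    rw [hFd]
    exact hE.union (hE.image _)
  have hFN : F ⊆ N := by
    rw [hFd]
    rintro x (hx | ⟨y, hy, rfl⟩)
    · exact Kg_le _ _ (hEN hx)
    · exact (inferInstance : N.Normal).conj_mem _ (Kg_le _ _ (hEN hy)) g
  obtain ⟨S, hS⟩ := exists_fin_set h.pairSystem (F := Subtype.val ⁻¹' F)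
    (hFf.preimage Subtype.val_injective.injOn)
  have hcl : Subgroup.closure F ≤ (NS A (↑S : Set V)).map N.subtype := by
    rw [Subgroup.closure_le]
    intro x hx
    exact ⟨⟨x, hFN hx⟩, hS ⟨x, hFN hx⟩ hx, rfl⟩
  have hn := Kg_normal h.pairSystem hp (S.card + 1)
  obtain ⟨P, hP⟩ : ∃ P : Subgroup G, P = Subgroup.closure F := ⟨_, rfl⟩
  have hinj : Function.Injective ((QuotientGroup.mk' (Kg h.pairSystem (S.card + 1))).comp
      P.subtype) := by
    rw [injective_iff_map_eq_one]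
    rintro ⟨x, hx⟩ hx1
    have h1 : x ∈ Kg h.pairSystem (S.card + 1) := (QuotientGroup.eq_one_iff x).1 hx1
    rw [hP] at hx
    obtain ⟨y, hy, rfl⟩ := hcl hx
    have h2 := (mem_Kn h.pairSystem).1 (mem_Kg.1 h1) S (Nat.le_succ _)
    rw [rr_fix h.pairSystem hy] at h2
    apply Subtype.ext
    show (y : G) = 1
    rw [h2]
    rfl
  subst hFd
  subst hP
  refine ⟨G ⧸ Kg h.pairSystem (S.card + 1), inferInstance,
    (QuotientGroup.mk' (Kg h.pairSystem (S.card + 1))).comp (Subgroup.subtype _),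
    QuotientGroup.mk' _ g, hall S.card, hinj, ?_⟩
  intro x y _ hxy
  show QuotientGroup.mk' _ (y : G) = _ * QuotientGroup.mk' _ (x : G) * _
  rw [hxy, map_mul, map_mul, map_inv]

/-! ### the first step -/

/-- the vertex groups as subgroups of `G` -/
def Ag (A : V → Subgroup N) (v : V) : Subgroup G := (A v).map N.subtype

theorem mem_Ag {v : V} {x : N} : (x : G) ∈ Ag A v ↔ x ∈ A v := by
  constructor
  · rintro ⟨y, hy, hyx⟩
    have : y = x := Subtype.ext hyx
    exact this ▸ hy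
  · intro h
    exact ⟨x, h, rfl⟩

theorem nc_le [N.Normal] (hA : PairSystem Γ A) (v : V) :
    NC N (Ag A) v ≤ (rr hA ({v} : Set V)).ker.map N.subtype := by
  rw [NC, Subgroup.closure_le]
  rintro _ ⟨w, hw, m, hm, b, ⟨x, hx, rfl⟩, rfl⟩
  refine ⟨⟨m, hm⟩ * x * (⟨m, hm⟩ : N)⁻¹, ?_, rfl⟩
  show rr hA ({v} : Set V) (⟨m, hm⟩ * x * (⟨m, hm⟩ : N)⁻¹) = 1
  rw [map_mul, map_mul, rr_kill hA (v := w) hw hx, mul_one, map_inv, mul_inv_cancel]

theorem dat_Ag [hN : N.Normal] (hA : PairSystem Γ A) (hne : ∀ v, A v ≠ ⊥)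
    (hp : ∀ (g : G) (v : V), ∃ (w : V) (m : N), ∀ x : N,
      x ∈ A v ↔ m * MulAut.conjNormal g x * m⁻¹ ∈ A w) : Dat N (Ag A) where
  nor := hN
  ne := by
    intro v hv
    apply hne v
    rw [eq_bot_iff]
    intro x hx
    have h1 : (x : G) ∈ Ag A v := mem_Ag.2 hx
    rw [hv, Subgroup.mem_bot] at h1
    exact Subtype.ext h1
  sup := by
    have h1 : (⨆ v, Ag A v) = (⨆ v, A v).map N.subtype := by
      rw [Subgroup.map_iSup]
      rfl
    rw [h1, hA.generate, ← MonoidHom.range_eq_map, Subgroup.range_subtype]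
  reg := by
    intro v
    rw [eq_bot_iff]
    rintro z ⟨hz1, hz2⟩
    obtain ⟨x, hx, rfl⟩ := hz1
    obtain ⟨y, hy, hyx⟩ := nc_le hA v hz2
    have h1 : y = x := Subtype.ext hyx
    have h2 : rr hA ({v} : Set V) y = 1 := hy
    rw [h1, rr_fix' hA (Set.mem_singleton v) hx] at h2
    rw [Subgroup.mem_bot]
    show (x : G) = 1
    rw [h2]
    rfl
  perm := by
    intro g v
    obtain ⟨w, m, h1⟩ := hp g v
    refine ⟨w, m, m.2, fun x => ?_⟩
    constructor
    · rintro ⟨y, hy, rfl⟩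
      have h2 := (h1 y).1 hy
      have h3 : ((m * MulAut.conjNormal g y * m⁻¹ : N) : G) = m * (g * y * g⁻¹) * (m : G)⁻¹ := by
        rw [Subgroup.coe_mul, Subgroup.coe_mul, MulAut.conjNormal_apply, Subgroup.coe_inv]
      show (m : G) * (g * (y : G) * g⁻¹) * (m : G)⁻¹ ∈ Ag A w
      rw [← h3]
      exact mem_Ag.2 h2
    · intro h2
      have h3 : x ∈ N := by
        have h4 : (m : G) * (g * x * g⁻¹) * (m : G)⁻¹ ∈ N := by
          obtain ⟨y, -, hy⟩ := h2
          rw [← hy]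
          exact y.2
        have h5 := N.mul_mem (N.mul_mem (N.inv_mem m.2) h4) m.2
        have h6 : (m : G)⁻¹ * (m * (g * x * g⁻¹) * (m : G)⁻¹) * m = g * x * g⁻¹ := by group
        rw [h6] at h5
        have h7 := hN.conj_mem _ h5 g⁻¹
        have h8 : g⁻¹ * (g * x * g⁻¹) * g⁻¹⁻¹ = x := by group
        rwa [h8] at h7
      have h4 : ((m * MulAut.conjNormal g ⟨x, h3⟩ * m⁻¹ : N) : G) =
          m * (g * x * g⁻¹) * (m : G)⁻¹ := by
        rw [Subgroup.coe_mul, Subgroup.coe_mul, MulAut.conjNormal_apply, Subgroup.coe_inv]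
      rw [← h4, mem_Ag] at h2
      exact mem_Ag.2 ((h1 ⟨x, h3⟩).2 h2)

theorem ct_eq [N.Normal] (hA : PairSystem Γ A) (d : Dat N (Ag A)) : Ct N (Ag A) = Kg hA 1 := by
  classical
  ext z
  rw [mem_Ct]
  constructor
  · rintro ⟨hz, h1⟩
    refine (mem_Kg (x := ⟨z, hz⟩)).2 ?_
    rw [mem_Kn]
    intro Δ hΔ
    rcases Nat.lt_or_ge Δ.card 1 with h2 | h2
    · have h3 : Δ = ∅ := Finset.card_eq_zero.1 (by omega)
      subst h3
      have h4 := rr_mem hA (↑(∅ : Finset V) : Set V) ⟨z, hz⟩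
      rw [Finset.coe_empty] at h4
      have h5 : NS A ∅ = ⊥ := by
        rw [eq_bot_iff]
        exact NS_le fun v hv => absurd hv (Set.notMem_empty v)
      rw [h5] at h4
      rw [Finset.coe_empty]
      exact h4
    · obtain ⟨v, rfl⟩ := Finset.card_eq_one.1 (le_antisymm hΔ h2)
      obtain ⟨y, hy, hyz⟩ := nc_le hA v (h1 v)
      have h3 : y = ⟨z, hz⟩ := Subtype.ext hyz
      rw [← h3, Finset.coe_singleton]
      exact hy
  · intro hz
    have hzN := Kg_le hA 1 hz
    refine ⟨hzN, fun v => ?_⟩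
    obtain ⟨b, hb, l, hl, hbl⟩ := dec d.sup v hzN
    obtain ⟨b', hb', rfl⟩ := hb
    obtain ⟨l', hl', hll⟩ := nc_le hA v hl
    have h1 : (⟨z, hzN⟩ : N) = b' * l' := Subtype.ext (by
      show z = (b' : G) * (l' : G)
      rw [hbl]
      show (b' : G) * l = (b' : G) * (l' : G)
      rw [← hll]
      rfl)
    have h2 := (mem_Kn hA).1 ((mem_Kg (x := ⟨z, hzN⟩)).1 hz) {v} (by rw [Finset.card_singleton])
    have h3 : rr hA ({v} : Set V) l' = 1 := hl'
    rw [h1, Finset.coe_singleton, map_mul, h3, mul_one, rr_fix' hA (Set.mem_singleton v) hb'] at h2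
    have h4 : z = l := by
      rw [hbl]
      show (b' : G) * l = l
      rw [h2]
      exact one_mul l
    rw [h4]
    exact hl

/-- the permutation -/
theorem perm_of [N.Normal] (hA : PairSystem Γ A) (hne : ∀ v, A v ≠ ⊥)
    (hp : ∀ (g : G) (v : V), ∃ (w : V) (m : N), ∀ x : N,
      x ∈ A v ↔ m * MulAut.conjNormal g x * m⁻¹ ∈ A w) : Perm A := by
  have hsb : ∀ (g : G) (v : V), ∃ w, MM A (MulAut.conjNormal g) {v} {w} := by
    intro g v
    obtain ⟨w, m, h1⟩ := hp g v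
    refine ⟨w, ⟨m⁻¹, fun x hx => ?_⟩, ⟨(MulAut.conjNormal g)⁻¹ m, fun x hx => ?_⟩⟩
    · rw [NS_single] at hx ⊢
      rw [inv_inv]
      exact (h1 x).1 hx
    · rw [NS_single] at hx ⊢
      refine (h1 _).2 ?_
      rw [map_mul, map_mul, map_inv, MulAut.apply_inv_self, MulAut.apply_inv_self]
      have : m * (m⁻¹ * x * m) * m⁻¹ = x := by group
      rw [this]
      exact hx
  intro g
  choose σ hσ using hsb g
  have hinj : Function.Injective σ := by
    intro u v huv
    have h1 := hσ u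
    rw [huv] at h1
    have h2 := h1.inj hA hne (hσ v)
    exact Set.singleton_eq_singleton_iff.1 h2
  have hsurj : Function.Surjective σ := by
    intro w
    obtain ⟨v, hv⟩ := hsb g⁻¹ w
    refine ⟨v, ?_⟩
    have h1 : MM A (MulAut.conjNormal g)⁻¹ {w} {v} := by
      rw [← map_inv]
      exact hv
    have h2 : MM A (MulAut.conjNormal g)⁻¹ {σ v} {v} := by
      refine ⟨(hσ v).2, ?_⟩
      rw [inv_inv]
      exact (hσ v).1
    exact (Set.singleton_eq_singleton_iff.1 (h1.inj hA hne h2)).symm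
  exact ⟨Equiv.ofBijective σ ⟨hinj, hsurj⟩, fun v => (hσ v).1⟩

/-- **the main theorem** -/
theorem pk_main [N.Normal] (hC : ClosedE C) (hF : FbC C) (h : IsGraphProduct Γ A)
    (hne : ∀ v, A v ≠ ⊥)
    (hp : ∀ (g : G) (v : V), ∃ (w : V) (m : N), ∀ x : N,
      x ∈ A v ↔ m * MulAut.conjNormal g x * m⁻¹ ∈ A w)
    (hst : ∀ (v : V) (g : G), (∀ x, x ∈ Ag A v ↔ g * x * g⁻¹ ∈ Ag A v) →
      C ↥(Ag A v ⊔ Subgroup.zpowers g))
    (hQ : C (G ⧸ N)) : C G := by
  have hperm := perm_of h.pairSystem hne hp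
  have d := dat_Ag h.pairSystem hne hp
  have hn1 := Kg_normal h.pairSystem hperm 1
  have hn2 := Ct_normal d
  refine from_one hC hF h hperm ?_
  have h1 := regular_quot hC d hst hQ
  exact C_equiv hC.base (QuotientGroup.quotientMulEquivOfEq (ct_eq h.pairSystem d).symm) h1

end Run7.h550.PK
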