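import Pool.Agent.Run7.h550.PK.Step

/-!
# The quotient by the cartesian subgroup (helper550)
-/

set_option autoImplicit false

namespace Run7.h550.PK

open Pool.Agent.Y110.FJ Pool.Agent.R684.FP
open Pool.Agent.R941.FJ (C_equiv C_le C_cyc mem_sup_normal IsRdp)
open Pool.Agent.Y462.SS (Closed)

variable {C : ∀ (G : Type) [Group G], Prop}

/-- the quotient by the cartesian subgroup (first part of the proof of `R684.FP.regular`) -/
theorem regular_quot (hC : ClosedE C) {G I : Type} [Group G] {M : Subgroup G}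
    {B : I → Subgroup G} [M.Normal] (d : Dat M B) [hn : (Ct M B).Normal]
    (hB : ∀ (i : I) (g : G), (∀ x, x ∈ B i ↔ g * x * g⁻¹ ∈ B i) → C ↥(B i ⊔ Subgroup.zpowers g))
    (hQ : C (G ⧸ M)) : C (G ⧸ Ct M B) := by
  let _ := act d
  have hact : ∀ (g : G) (i : I), (g : G ⧸ Ct M B) • i = sg d g i := fun g i => act_mk d g i
  obtain ⟨π, hπ⟩ : ∃ π : G →* G ⧸ Ct M B, π = QuotientGroup.mk' (Ct M B) := ⟨_, rfl⟩
  have hπe : ∀ x y : G, π x = π y ↔ x⁻¹ * y ∈ Ct M B := by
    intro x y
    rw [hπ]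
    exact QuotientGroup.eq
  have hπ1 : ∀ x : G, π x = 1 ↔ x ∈ Ct M B := by
    intro x
    rw [hπ]
    exact QuotientGroup.eq_one_iff x
  have hπc : ∀ {i : I} {b l : G}, b ∈ B i → l ∈ NC M B i → π (l * b * l⁻¹) = π b := by
    intro i b l hb hl
    have h1 := (hπ1 _).2 (comm_mem d hb hl)
    rw [map_mul, map_inv π b, mul_inv_eq_one] at h1
    exact h1
  have hπs : Function.Surjective π := by rw [hπ]; exact QuotientGroup.mk'_surjective _
  have hMn : (M.map π).Normal := Subgroup.Normal.map inferInstance π hπs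
  have hinj : ∀ (i : I) (b : G), b ∈ B i → π b = 1 → b = 1 := by
    intro i b hb h1
    have h2 : b ∈ B i ⊓ NC M B i := ⟨hb, Ct_le' i ((hπ1 b).1 h1)⟩
    rwa [d.reg i, Subgroup.mem_bot] at h2
  -- conjugates
  have hconj : ∀ (g : G) (i : I), ∃ c : G, (∀ x, x ∈ B i ↔ c * x * c⁻¹ ∈ B (sg d g i)) ∧
      ∀ x, x ∈ B i → π (g * x * g⁻¹) = π (c * x * c⁻¹) := by
    intro g i
    obtain ⟨m, hm, h1⟩ := sg_spec d g i
    obtain ⟨b, hb, l, hl, hbl⟩ := dec d.sup (sg d g i) (M.inv_mem hm)
    refine ⟨b * m * g, fun x => ?_, fun x hx => ?_⟩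
    · rw [h1]
      have h2 : b * m * g * x * (b * m * g)⁻¹ = b * (m * (g * x * g⁻¹) * m⁻¹) * b⁻¹ := by group
      rw [h2]
      constructor
      · intro h
        exact (B _).mul_mem ((B _).mul_mem hb h) ((B _).inv_mem hb)
      · intro h
        have h3 := (B _).mul_mem ((B _).mul_mem ((B _).inv_mem hb) h) hb
        have h4 : ∀ z : G, b⁻¹ * (b * z * b⁻¹) * b = z := fun z => by group
        rwa [h4] at h3
    · have h3 := (h1 x).1 hx
      obtain ⟨y, hy⟩ : ∃ y, y = m * (g * x * g⁻¹) * m⁻¹ := ⟨_, rfl⟩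
      rw [← hy] at h3
      have h4 : g * x * g⁻¹ = b * (l * y * l⁻¹) * b⁻¹ := by
        have h5 : g * x * g⁻¹ = m⁻¹ * y * m⁻¹⁻¹ := by rw [hy]; group
        rw [h5, hbl]
        group
      have h5 : b * m * g * x * (b * m * g)⁻¹ = b * y * b⁻¹ := by rw [hy]; group
      rw [h5, h4, map_mul, map_mul π b, hπc h3 hl, ← map_mul, ← map_mul]
  refine Pool.Agent.R941.FJ.rdp (N := M.map π) (K := fun i => (B i).map π) hC ?_ ?_ ?_
  · -- restricted direct product
    refine ⟨?_, ?_, ?_, ?_⟩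
    · rw [← Subgroup.map_iSup, d.sup]
    · rintro i j hij _ ⟨x, hx, rfl⟩ _ ⟨y, hy, rfl⟩
      have h1 := hπc hx (mem_NC' (M := M) (fun h => hij h.symm) hy)
      rw [map_mul, map_mul, map_inv, mul_inv_eq_iff_eq_mul] at h1
      exact h1.symm
    · intro i
      rw [eq_bot_iff]
      rintro z ⟨hz1, hz2⟩
      obtain ⟨b, hb, rfl⟩ := hz1
      have h1 : (⨆ j, ⨆ _ : j ≠ i, (B j).map π) ≤ (NC M B i).map π := by
        refine iSup₂_le fun j hj => Subgroup.map_mono ?_
        intro x hx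
        exact mem_NC' hj hx
      obtain ⟨l, hl, hlb⟩ := h1 hz2
      have h2 := Ct_le' i ((hπe l b).1 hlb)
      have h3 : b ∈ NC M B i := by
        have := (NC M B i).mul_mem hl h2
        rwa [mul_inv_cancel_left] at this
      have h4 : b ∈ B i ⊓ NC M B i := ⟨hb, h3⟩
      rw [d.reg i, Subgroup.mem_bot] at h4
      rw [Subgroup.mem_bot, h4, map_one]
    · intro g i x hx
      obtain ⟨a, rfl⟩ := hπs g
      obtain ⟨b, hb, rfl⟩ := hx
      obtain ⟨c, hc, hc'⟩ := hconj a i
      have h1 : π a • i = sg d a i := by rw [hπ]; exact hact a i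
      rw [h1, ← map_mul, ← map_inv, ← map_mul, hc' b hb]
      exact ⟨_, (hc b).1 hb, rfl⟩
  · -- cyclic extensions of the factors
    intro i g hgi
    obtain ⟨a, rfl⟩ := hπs g
    have h1 : π a • i = sg d a i := by rw [hπ]; exact hact a i
    rw [h1] at hgi
    obtain ⟨c, hc, hc'⟩ := hconj a i
    rw [hgi] at hc
    -- the isomorphism
    let e0 : B i →* (B i).map π := (π.subgroupMap (B i))
    have he0 : Function.Bijective e0 := by
      refine ⟨?_, MonoidHom.subgroupMap_surjective _ _⟩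
      rw [injective_iff_map_eq_one]
      intro x hx
      exact Subtype.ext (hinj i x x.2 (congrArg Subtype.val hx))
    let e : B i ≃* (B i).map π := MulEquiv.ofBijective e0 he0
    have he : ∀ x : B i, ((e x : (B i).map π) : G ⧸ Ct M B) = π x := fun x => rfl
    have hcP : c ∈ B i ⊔ Subgroup.zpowers c := Subgroup.mem_sup_right (Subgroup.mem_zpowers c)
    have hBle : B i ≤ B i ⊔ Subgroup.zpowers c := le_sup_left
    refine cyc_real hC ((B i).map π) (π a) ?_
      ((Subgroup.inclusion hBle).comp e.symm.toMonoidHom) ?_ ⟨c, hcP⟩ ?_ (hB i c hc)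
    · -- normalization
      intro x
      have key : ∀ x, x ∈ (B i).map π → π a * x * (π a)⁻¹ ∈ (B i).map π := by
        rintro _ ⟨b, hb, rfl⟩
        rw [← map_mul, ← map_inv, ← map_mul, hc' b hb]
        exact ⟨_, (hc b).1 hb, rfl⟩
      refine ⟨key x, fun hx => ?_⟩
      obtain ⟨b, hb, hbx⟩ := hx
      have hb' : c * (c⁻¹ * b * c) * c⁻¹ ∈ B i := by
        have : c * (c⁻¹ * b * c) * c⁻¹ = b := by group
        rw [this]; exact hb
      have h2 := (hc _).2 hb'
      have h3 := hc' _ h2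
      have h4 : c * (c⁻¹ * b * c) * c⁻¹ = b := by group
      rw [h4, hbx, map_mul, map_mul, map_inv, mul_left_inj, mul_right_inj] at h3
      rw [← h3]
      exact ⟨_, h2, rfl⟩
    · exact (Subgroup.inclusion_injective hBle).comp e.symm.injective
    · intro x y hxy
      obtain ⟨b, rfl⟩ := e.surjective x
      have h2 : y = e ⟨c * b * c⁻¹, (hc b).1 b.2⟩ := by
        apply Subtype.ext
        rw [hxy, he, he, ← map_mul, ← map_inv, ← map_mul, hc' b b.2]
      rw [h2]
      apply Subtype.ext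
      show ((e.symm (e ⟨c * b * c⁻¹, (hc b).1 b.2⟩) : B i) : G) = c * ((e.symm (e b) : B i) : G) * c⁻¹
      rw [e.symm_apply_apply, e.symm_apply_apply]
  · -- the quotient
    have h1 : (M.map π) = M.map (QuotientGroup.mk' (Ct M B)) := by rw [hπ]
    have hle : Ct M B ≤ M := Ct_le
    subst hπ
    exact C_equiv hC.base (QuotientGroup.quotientQuotientEquivQuotient (Ct M B) M hle) hQ

end Run7.h550.PK
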