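import Pool.Agent.Run7.h550.TK.KS

/-!
# Graph products over infinite graphs: the filtration by the retractions (helper550)
-/

set_option autoImplicit false

namespace Run7.h550.PK

open Pool.Agent.Y110.FJ Run7.h550.TK
open Pool.Agent.Y462.SS (Closed)
open Pool.Agent.R684.FP (FbC free_ext cyc_real)

variable {C : ∀ (G : Type) [Group G], Prop}

/-- cyclic extensions of kernels as in `Ext` -/
theorem ext_cyc (hC : ClosedE C) {H : Type} [Group H] {K : Subgroup H} (hE : Ext C K) (g : H)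
    (hg : ∀ x, x ∈ K ↔ g * x * g⁻¹ ∈ K) : C ↥(K ⊔ Subgroup.zpowers g) := by
  obtain ⟨α, hα⟩ : ∃ α : MulAut K, ∀ x : K, ((α x : K) : H) = g * x * g⁻¹ := by
    refine ⟨{ toFun := fun x => ⟨g * x * g⁻¹, (hg x).1 x.2⟩
              invFun := fun x => ⟨g⁻¹ * x * g, (hg _).2 (by
                have : g * (g⁻¹ * (x : H) * g) * g⁻¹ = x := by group
                rw [this]
                exact x.2)⟩
              left_inv := fun x => Subtype.ext (by
                show g⁻¹ * (g * (x : H) * g⁻¹) * g = x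
                group)
              right_inv := fun x => Subtype.ext (by
                show g * (g⁻¹ * (x : H) * g) * g⁻¹ = x
                group)
              map_mul' := fun x y => Subtype.ext (by
                show g * ((x : H) * y) * g⁻¹ = (g * x * g⁻¹) * (g * y * g⁻¹)
                group) }, fun x => rfl⟩
  have h1 : C (K ⋊[zpowersHom (MulAut K) α] Multiplicative ℤ) := by
    obtain ⟨M, hM⟩ : ∃ M : Subgroup (K ⋊[zpowersHom (MulAut K) α] Multiplicative ℤ),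
        M = (SemidirectProduct.inl (φ := zpowersHom (MulAut K) α)).range := ⟨_, rfl⟩
    have hMk : M = (SemidirectProduct.rightHom (φ := zpowersHom (MulAut K) α)).ker := by
      rw [hM, SemidirectProduct.range_inl_eq_ker_rightHom]
    have hMn : M.Normal := by rw [hMk]; infer_instance
    refine hE _ M ?_ ?_
    · subst hM
      exact ⟨(MonoidHom.ofInjective (f := SemidirectProduct.inl (φ := zpowersHom (MulAut K) α))
        SemidirectProduct.inl_injective).symm⟩
    · subst hMk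
      exact hC.base.of_injective _ _ (QuotientGroup.kerLift _)
        (QuotientGroup.kerLift_injective _) hC.base.int
  refine cyc_real hC K g hg SemidirectProduct.inl SemidirectProduct.inl_injective
    (SemidirectProduct.inr (Multiplicative.ofAdd 1)) ?_ h1
  intro x y hxy
  have h3 : y = α x := Subtype.ext (by rw [hxy, hα])
  have h4 := SemidirectProduct.inl_aut (φ := zpowersHom (MulAut K) α) (Multiplicative.ofAdd 1) x
  have h5 : (zpowersHom (MulAut K) α) (Multiplicative.ofAdd 1) = α := by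
    rw [zpowersHom_apply, toAdd_ofAdd, zpow_one]
  rw [h5] at h4
  rw [h3]
  exact h4.trans (by rw [map_inv])

theorem ext_free (hC : ClosedE C) (hF : FbC C) {K : Type} [Group K] (hK : IsFreeGroup K) :
    Ext C K := by
  intro G _ M _ he hQ
  obtain ⟨e⟩ := he
  have : IsFreeGroup M := IsFreeGroup.ofMulEquiv e.symm
  exact free_ext hC hF M hQ

variable {N V : Type} [Group N] {Γ : SimpleGraph V} {A : V → Subgroup N}

/-- the retraction onto the subgroup of `Δ` -/
noncomputable def rr (hA : PairSystem Γ A) (Δ : Set V) : N →* N :=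
  Classical.choose (exists_rho hA Δ)

variable (hA : PairSystem Γ A)

theorem rr_fix' {Δ : Set V} {v : V} (hv : v ∈ Δ) {x : N} (hx : x ∈ A v) : rr hA Δ x = x :=
  (Classical.choose_spec (exists_rho hA Δ)).1 v hv x hx

theorem rr_kill {Δ : Set V} {v : V} (hv : v ∉ Δ) {x : N} (hx : x ∈ A v) : rr hA Δ x = 1 :=
  (Classical.choose_spec (exists_rho hA Δ)).2.1 v hv x hx

theorem rr_mem (Δ : Set V) (x : N) : rr hA Δ x ∈ NS A Δ :=
  (Classical.choose_spec (exists_rho hA Δ)).2.2 x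

theorem rr_fix {Δ : Set V} {x : N} (hx : x ∈ NS A Δ) : rr hA Δ x = x :=
  rho_fix (fun _ hv _ hx => rr_fix' hA hv hx) x hx

theorem hom_ext_gen {H : Type} [Group H] {f g : N →* H} (hA : PairSystem Γ A)
    (h : ∀ v, ∀ x ∈ A v, f x = g x) (x : N) : f x = g x :=
  NS_eq_on (A := A) (Δ := Set.univ) (fun v _ x hx => h v x hx) x
    (by rw [NS_top hA]; exact Subgroup.mem_top x)

/-- homomorphisms which kill the groups outside `Δ` -/
theorem through {H : Type} [Group H] (f : N →* H) {Δ : Set V}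
    (hf : ∀ v, v ∉ Δ → ∀ x ∈ A v, f x = 1) (x : N) : f (rr hA Δ x) = f x := by
  refine hom_ext_gen (f := f.comp (rr hA Δ)) (g := f) hA (fun v x hx => ?_) x
  show f (rr hA Δ x) = f x
  by_cases hv : v ∈ Δ
  · rw [rr_fix' hA hv hx]
  · rw [rr_kill hA hv hx, map_one, hf v hv x hx]

theorem rr_rr (Δ Δ' : Set V) (x : N) : rr hA Δ (rr hA Δ' x) = rr hA (Δ ∩ Δ') x := by
  refine hom_ext_gen (f := (rr hA Δ).comp (rr hA Δ')) (g := rr hA (Δ ∩ Δ')) hA
    (fun v x hx => ?_) x
  show rr hA Δ (rr hA Δ' x) = rr hA (Δ ∩ Δ') x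
  by_cases hv : v ∈ Δ'
  · rw [rr_fix' hA hv hx]
    by_cases hv' : v ∈ Δ
    · rw [rr_fix' hA hv' hx, rr_fix' hA (Δ := Δ ∩ Δ') ⟨hv', hv⟩ hx]
    · rw [rr_kill hA hv' hx, rr_kill hA (Δ := Δ ∩ Δ') (fun h => hv' h.1) hx]
  · rw [rr_kill hA hv hx, map_one, rr_kill hA (Δ := Δ ∩ Δ') (fun h => hv h.2) hx]

/-- elements killed by all retractions to subgroups of at most `n` vertices -/
noncomputable def Kn (n : ℕ) : Subgroup N := ⨅ Δ : Finset V, ⨅ _ : Δ.card ≤ n, (rr hA (↑Δ : Set V)).ker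

theorem mem_Kn {n : ℕ} {x : N} : x ∈ Kn hA n ↔ ∀ Δ : Finset V, Δ.card ≤ n →
    rr hA (↑Δ : Set V) x = 1 := by
  rw [Kn, Subgroup.mem_iInf]
  refine forall_congr' fun Δ => ?_
  rw [Subgroup.mem_iInf]
  exact forall_congr' fun _ => MonoidHom.mem_ker

theorem Kn_anti {m n : ℕ} (h : m ≤ n) : Kn hA n ≤ Kn hA m := by
  intro x hx
  rw [mem_Kn] at hx ⊢
  exact fun Δ hΔ => hx Δ (hΔ.trans h)

/-- elements killed by the retractions to proper subsets -/
noncomputable def F0 (Δ : Finset V) : Subgroup N := ⨅ Δ' : Finset V, ⨅ _ : Δ' ⊂ Δ, (rr hA (↑Δ' : Set V)).ker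

theorem mem_F0 {Δ : Finset V} {x : N} : x ∈ F0 hA Δ ↔ ∀ Δ' : Finset V, Δ' ⊂ Δ →
    rr hA (↑Δ' : Set V) x = 1 := by
  rw [F0, Subgroup.mem_iInf]
  refine forall_congr' fun Δ => ?_
  rw [Subgroup.mem_iInf]
  exact forall_congr' fun _ => MonoidHom.mem_ker

instance F0_normal (Δ : Finset V) : (F0 hA Δ).Normal := by
  refine ⟨fun x hx g => ?_⟩
  rw [mem_F0] at hx ⊢
  intro Δ' h
  rw [map_mul, map_mul, hx Δ' h, mul_one, map_inv, mul_inv_cancel]

noncomputable def Fd (Δ : Finset V) : Subgroup N := NS A (↑Δ : Set V) ⊓ F0 hA Δ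

/-- other retractions kill `Fd Δ` -/
theorem Fd_kill [DecidableEq V] {Δ Δ' : Finset V} (h : ¬ Δ ⊆ Δ') {x : N} (hx : x ∈ Fd hA Δ) :
    rr hA (↑Δ' : Set V) x = 1 := by
  have h1 : x = rr hA (↑Δ : Set V) x := (rr_fix hA hx.1).symm
  rw [h1, rr_rr]
  have h2 : (↑Δ' ∩ ↑Δ : Set V) = ↑(Δ' ∩ Δ) := by simp
  rw [h2]
  refine (mem_F0 hA).1 hx.2 _ ⟨Finset.inter_subset_right, fun h3 => h ?_⟩
  exact fun v hv => (Finset.mem_inter.1 (h3 hv)).1

/-- `Fd` of the image -/
theorem rr_mem_Fd [DecidableEq V] {Δ : Finset V} {n : ℕ} (hΔ : Δ.card = n + 1) {x : N}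
    (hx : x ∈ Kn hA n) : rr hA (↑Δ : Set V) x ∈ Fd hA Δ := by
  refine ⟨rr_mem hA _ _, (mem_F0 hA).2 ?_⟩
  intro Δ' h
  rw [rr_rr]
  have h2 : (↑Δ' ∩ ↑Δ : Set V) = ↑(Δ' ∩ Δ) := by simp
  rw [h2]
  refine (mem_Kn hA).1 hx _ ?_
  have h3 := Finset.card_lt_card h
  have h4 := Finset.card_le_card (Finset.inter_subset_left (s₁ := Δ') (s₂ := Δ))
  omega

theorem Fd_le_Kn [DecidableEq V] {Δ : Finset V} {n : ℕ} (hΔ : Δ.card = n + 1) :
    Fd hA Δ ≤ Kn hA n := by
  intro x hx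
  rw [mem_Kn]
  intro Δ' h
  refine Fd_kill hA (fun h1 => ?_) hx
  have := Finset.card_le_card h1
  omega

/-- cliques with at least two vertices -/
theorem Fd_clique [DecidableEq V] (h : IsGraphProduct Γ A) {Δ : Finset V}
    (hc : Γ.IsClique (↑Δ : Set V)) (hcard : 2 ≤ Δ.card) : Fd h.pairSystem Δ = ⊥ := by
  rw [eq_bot_iff]
  intro x hx
  obtain ⟨v, hv⟩ : Δ.Nonempty := Finset.card_pos.1 (by omega)
  obtain ⟨F, hF⟩ : ∃ F : ↥(A v) × ↥(NS A (↑Δ \ {v} : Set V)) →* N, ∀ p, F p =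
      (p.1 : N) * (p.2 : N) :=
    ⟨MonoidHom.noncommCoprod (A v).subtype (NS A (↑Δ \ {v} : Set V)).subtype (by
      intro a b
      exact comm_NS h hc (Finset.mem_coe.2 hv) a a.2 b b.2), fun p => rfl⟩
  have h3 : NS A (↑Δ : Set V) ≤ F.range := by
    refine NS_le ?_
    intro u hu y hy
    by_cases huv : u = v
    · subst huv
      refine ⟨(⟨y, hy⟩, 1), ?_⟩
      rw [hF]
      exact mul_one y
    · have h4 : u ∈ (↑Δ \ {v} : Set V) := ⟨hu, huv⟩
      refine ⟨(1, ⟨y, le_NS h4 hy⟩), ?_⟩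
      rw [hF]
      exact one_mul y
  obtain ⟨⟨⟨a, ha⟩, ⟨b, hb⟩⟩, hab⟩ := h3 hx.1
  rw [hF] at hab
  have hab' : a * b = x := hab
  have e1 : rr h.pairSystem (↑({v} : Finset V) : Set V) x = 1 := by
    refine (mem_F0 h.pairSystem).1 hx.2 _ ?_
    rw [Finset.ssubset_iff_subset_ne]
    refine ⟨Finset.singleton_subset_iff.2 hv, fun h5 => ?_⟩
    rw [← h5, Finset.card_singleton] at hcard
    omega
  have e2 : rr h.pairSystem (↑(Δ.erase v) : Set V) x = 1 :=
    (mem_F0 h.pairSystem).1 hx.2 _ (Finset.erase_ssubset hv)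
  rw [← hab', map_mul] at e1 e2
  have h5 : ∀ y ∈ NS A (↑Δ \ {v} : Set V), rr h.pairSystem (↑({v} : Finset V) : Set V) y = 1 :=
    NS_eq_on (g := (1 : N →* N)) fun u hu y hy => rr_kill h.pairSystem (by
      rw [Finset.coe_singleton]
      exact hu.2) hy
  have h6 : rr h.pairSystem (↑({v} : Finset V) : Set V) a = a :=
    rr_fix' h.pairSystem (by rw [Finset.coe_singleton]; rfl) ha
  rw [h5 b hb, h6, mul_one] at e1
  have h7 : rr h.pairSystem (↑(Δ.erase v) : Set V) b = b := rr_fix h.pairSystem (by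
    rw [Finset.coe_erase]
    exact hb)
  rw [e1, map_one, one_mul, h7] at e2
  rw [Subgroup.mem_bot, ← hab', e1, e2, one_mul]

/-- **the other factors are free** -/
theorem Fd_free [DecidableEq V] (h : IsGraphProduct Γ A) {Δ : Finset V}
    (hc : ¬ Γ.IsClique (↑Δ : Set V)) : IsFreeGroup ↥(Fd h.pairSystem Δ) := by
  obtain ⟨v, hv, w, hw, hvw, hadj⟩ : ∃ v ∈ Δ, ∃ w ∈ Δ, v ≠ w ∧ ¬ Γ.Adj v w := by
    by_contra hcon
    push Not at hcon
    exact hc fun v hv w hw hvw => hcon v hv w hw hvw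
  have ham := amg_NS h.pairSystem (Finset.mem_coe.2 hv) (Finset.mem_coe.2 hw) hvw hadj
  have key : ∀ u ∈ Δ, ∀ x : ↥(NS A (↑Δ : Set V)), x ∈ (NS A (↑Δ \ {u} : Set V)).subgroupOf
      (NS A (↑Δ : Set V)) → x ∈ (F0 h.pairSystem Δ).subgroupOf (NS A (↑Δ : Set V)) → x = 1 := by
    intro u hu x hx hx2
    have h1 : rr h.pairSystem (↑(Δ.erase u) : Set V) (x : N) = 1 :=
      (mem_F0 h.pairSystem).1 hx2 _ (Finset.erase_ssubset hu)
    have h2 : rr h.pairSystem (↑(Δ.erase u) : Set V) (x : N) = x := rr_fix h.pairSystem (by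
      rw [Finset.coe_erase]
      exact hx)
    rw [h2] at h1
    exact Subtype.ext h1
  have hfree := free_of ham (R := (F0 h.pairSystem Δ).subgroupOf (NS A (↑Δ : Set V)))
    (key v hv) (key w hw)
  have e : ↥((F0 h.pairSystem Δ).subgroupOf (NS A (↑Δ : Set V))) ≃* ↥(Fd h.pairSystem Δ) := by
    have h1 : (F0 h.pairSystem Δ).subgroupOf (NS A (↑Δ : Set V)) =
        (Fd h.pairSystem Δ).subgroupOf (NS A (↑Δ : Set V)) := by
      rw [Fd, Subgroup.inf_subgroupOf_left]
    rw [h1]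
    exact Subgroup.subgroupOfEquivOfLe inf_le_left
  exact IsFreeGroup.ofMulEquiv e

/-- finite supports -/
theorem exists_fin (hA : PairSystem Γ A) [DecidableEq V] (x : N) :
    ∃ S : Finset V, x ∈ NS A (↑S : Set V) := by
  have h1 : (⊤ : Subgroup N) ≤
      { carrier := {x | ∃ S : Finset V, x ∈ NS A (↑S : Set V)}
        one_mem' := ⟨∅, one_mem _⟩
        mul_mem' := by
          rintro x y ⟨S, hS⟩ ⟨T, hT⟩
          refine ⟨S ∪ T, mul_mem (NS_mono ?_ hS) (NS_mono ?_ hT)⟩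
          · rw [Finset.coe_union]
            exact Set.subset_union_left
          · rw [Finset.coe_union]
            exact Set.subset_union_right
        inv_mem' := by
          rintro x ⟨S, hS⟩
          exact ⟨S, inv_mem hS⟩ : Subgroup N } := by
    rw [← hA.generate]
    refine iSup_le fun v x hx => ⟨{v}, ?_⟩
    exact le_NS (Finset.mem_coe.2 (Finset.mem_singleton_self v)) hx
  exact h1 (Subgroup.mem_top x)

end Run7.h550.PK
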