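import Pool.Agent.Run7.h550.PK.KS1
import Pool.Agent.Run7.h550.TK.RV4

/-!
# Automorphisms of graph products of rigid groups over arbitrary graphs (helper550)
-/

set_option autoImplicit false

namespace Run7.h550.PK

open Pool.Agent.Y110.FJ Run7.h550.TK
open Pool.Agent.R684.FP (FbC)

variable {C : ∀ (G : Type) [Group G], Prop}
variable {N V : Type} [Group N] {Γ : SimpleGraph V} {A : V → Subgroup N}

theorem fa_clique' (h : IsGraphProduct Γ A) (hg : ∀ v, FA (A v)) :
    ∀ (n : ℕ) (Δ : Set V), Δ.Finite → Δ.ncard = n → Γ.IsClique Δ → FA ↥(NS A Δ) := by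
  intro n
  induction n with
  | zero =>
    intro Δ hf hΔ _
    have h1 : Δ = ∅ := (Set.ncard_eq_zero hf).1 hΔ
    subst h1
    have h2 : NS A ∅ = ⊥ := by
      rw [eq_bot_iff]
      exact NS_le fun v hv => absurd hv (Set.notMem_empty v)
    have : Subsingleton ↥(NS A ∅) := by
      rw [h2]
      infer_instance
    exact fa_subsingleton
  | succ n ih =>
    intro Δ hf hΔ hc
    obtain ⟨v, hv⟩ : Δ.Nonempty := Set.nonempty_of_ncard_ne_zero (by rw [hΔ]; exact n.succ_ne_zero)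
    have h1 : (Δ \ {v}).ncard = n := by
      have := Set.ncard_diff_singleton_add_one hv hf
      rw [hΔ] at this
      exact Nat.succ.inj this
    have g1 := ih _ (hf.subset Set.diff_subset) h1 (hc.subset Set.diff_subset)
    obtain ⟨e⟩ := clique_iso h hc hv
    exact fa_equiv e (fa_prod (hg v) g1)

theorem fa_into' (h : PairSystem Γ A) :
    ∀ (n : ℕ) (Δ : Set V), Δ.Finite → Δ.ncard = n → ∀ H : Subgroup N, H ≤ NS A Δ → FA H →
      ∃ (g : N) (K : Set V), K.Finite ∧ Γ.IsClique K ∧ ∀ x ∈ H, g⁻¹ * x * g ∈ NS A K := by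
  intro n
  induction n with
  | zero =>
    intro Δ hf hΔ H hH _
    have h1 : Δ = ∅ := (Set.ncard_eq_zero hf).1 hΔ
    refine ⟨1, Δ, hf, ?_, fun x hx => ?_⟩
    · rw [h1]
      intro v hv
      exact absurd hv (Set.notMem_empty v)
    · have : (1 : N)⁻¹ * x * 1 = x := by group
      rw [this]
      exact hH hx
  | succ n ih =>
    intro Δ hf hΔ H hH hfa
    by_cases hc : Γ.IsClique Δ
    · refine ⟨1, Δ, hf, hc, fun x hx => ?_⟩
      have : (1 : N)⁻¹ * x * 1 = x := by group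
      rw [this]
      exact hH hx
    · obtain ⟨v, hv, w, hw, hvw, hadj⟩ : ∃ v ∈ Δ, ∃ w ∈ Δ, v ≠ w ∧ ¬ Γ.Adj v w := by
        by_contra hcon
        push Not at hcon
        exact hc fun v hv w hw hvw => hcon v hv w hw hvw
      have hlt : ∀ u ∈ Δ, (Δ \ {u}).ncard = n := by
        intro u hu
        have := Set.ncard_diff_singleton_add_one hu hf
        rw [hΔ] at this
        exact Nat.succ.inj this
      have ham := amg_NS h hv hw hvw hadj
      have hfa' : FA ↥(H.subgroupOf (NS A Δ)) :=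
        fa_equiv (Subgroup.subgroupOfEquivOfLe hH).symm hfa
      obtain ⟨m, hm⟩ := fa_conj ham hfa'
      have key : ∀ u ∈ Δ, (∀ x ∈ H.subgroupOf (NS A Δ), m⁻¹ * x * m ∈
          (NS A (Δ \ {u})).subgroupOf (NS A Δ)) →
          ∃ (g : N) (K : Set V), K.Finite ∧ Γ.IsClique K ∧ ∀ x ∈ H, g⁻¹ * x * g ∈ NS A K := by
        intro u hu hmu
        have h7 : ∀ x : N, (MulAut.conj (m : N)⁻¹).toMonoidHom x = (m : N)⁻¹ * x * m := by
          intro x
          show (m : N)⁻¹ * x * (m : N)⁻¹⁻¹ = _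
          rw [inv_inv]
        have h5 : H.map (MulAut.conj (m : N)⁻¹).toMonoidHom ≤ NS A (Δ \ {u}) := by
          rintro _ ⟨x, hx, rfl⟩
          have h6 := hmu ⟨x, hH hx⟩ hx
          rw [h7]
          exact h6
        have h8 : FA ↥(H.map (MulAut.conj (m : N)⁻¹).toMonoidHom) :=
          fa_image ((MulAut.conj (m : N)⁻¹).toMonoidHom.subgroupMap H)
            (MonoidHom.subgroupMap_surjective _ _) hfa
        obtain ⟨g, K, hKf, hK, hg⟩ := ih _ (hf.subset Set.diff_subset) (hlt u hu) _ h5 h8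
        refine ⟨m * g, K, hKf, hK, fun x hx => ?_⟩
        have h9 := hg _ ⟨x, hx, rfl⟩
        rw [h7] at h9
        have h10 : ((m : N) * g)⁻¹ * x * ((m : N) * g) = g⁻¹ * ((m : N)⁻¹ * x * m) * g := by group
        rw [h10]
        exact h9
      rcases hm with hm | hm
      · exact key v hv hm
      · exact key w hw hm

theorem exists_fin_set' (hA : PairSystem Γ A) {F : Set N} (hF : F.Finite) :
    ∃ S : Finset V, ∀ x ∈ F, x ∈ NS A (↑S : Set V) := by
  classical
  induction F, hF using Set.Finite.induction_on with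
  | empty => exact ⟨∅, fun x hx => absurd hx (Set.notMem_empty x)⟩
  | @insert a F _ _ ih =>
    obtain ⟨S, hS⟩ := ih
    obtain ⟨T, hT⟩ := exists_fin hA a
    refine ⟨T ∪ S, ?_⟩
    rintro x (rfl | hx)
    · refine NS_mono ?_ hT
      rw [Finset.coe_union]
      exact Set.subset_union_left
    · refine NS_mono ?_ (hS x hx)
      rw [Finset.coe_union]
      exact Set.subset_union_right

theorem exists_gens (hfg : ∀ v, Group.FG (A v)) {K : Set V} (hK : K.Finite) :
    ∃ F : Set N, F.Finite ∧ NS A K ≤ Subgroup.closure F := by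
  induction K, hK using Set.Finite.induction_on with
  | empty => exact ⟨∅, Set.finite_empty, NS_le fun v hv => absurd hv (Set.notMem_empty v)⟩
  | @insert v K _ _ ih =>
    obtain ⟨F, hF, h1⟩ := ih
    have h2 : (A v).FG := (Group.fg_iff_subgroup_fg (A v)).1 (hfg v)
    obtain ⟨S, hS⟩ := h2
    refine ⟨↑S ∪ F, S.finite_toSet.union hF, NS_le ?_⟩
    rintro u (rfl | hu)
    · rw [← hS]
      exact Subgroup.closure_mono Set.subset_union_left
    · exact ((le_NS hu).trans h1).trans (Subgroup.closure_mono Set.subset_union_right)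

theorem exists_Sb' (h : IsGraphProduct Γ A) (hfa : ∀ v, FA (A v)) (hfg : ∀ v, Group.FG (A v))
    (φ : MulAut N) {K : Set V} (hKf : K.Finite) (hK : Γ.IsClique K) :
    ∃ K' : Set V, K'.Finite ∧ Γ.IsClique K' ∧ Sb A φ K K' := by
  have h1 : FA ↥((NS A K).map φ.toMonoidHom) :=
    fa_image (φ.toMonoidHom.subgroupMap (NS A K)) (MonoidHom.subgroupMap_surjective _ _)
      (fa_clique' h hfa _ K hKf rfl hK)
  obtain ⟨F, hF, hKF⟩ := exists_gens hfg hKf
  obtain ⟨S, hS⟩ := exists_fin_set' h.pairSystem (hF.image φ)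
  have h2 : (NS A K).map φ.toMonoidHom ≤ NS A (↑S : Set V) := by
    rw [Subgroup.map_le_iff_le_comap]
    refine hKF.trans ?_
    rw [Subgroup.closure_le]
    intro x hx
    exact hS _ ⟨x, hx, rfl⟩
  obtain ⟨g, K1, hK1f, hK1, hg⟩ := fa_into' h.pairSystem _ (↑S : Set V) S.finite_toSet rfl
    ((NS A K).map φ.toMonoidHom) h2 h1
  exact ⟨K1, hK1f, hK1, g, fun x hx => hg _ ⟨x, hx, rfl⟩⟩

/-- subgroups of cliques are normal in the subgroups of larger cliques -/
theorem clique_conj (h : IsGraphProduct Γ A) {K L : Set V} (hL : Γ.IsClique L) (hKL : K ⊆ L)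
    {s x : N} (hs : s ∈ NS A L) (hx : x ∈ NS A K) : s * x * s⁻¹ ∈ NS A K := by
  have h1 : NS A L ≤ Subgroup.normalizer (NS A K : Set N) := by
    refine NS_le fun v hv y hy => ?_
    by_cases hvK : v ∈ K
    · exact Subgroup.le_normalizer (le_NS hvK hy)
    · have hcomm : ∀ a ∈ NS A K, a * y = y * a := by
        intro a ha
        refine NS_comm h (Δ1 := K) (Δ2 := {v}) ?_ a ha y (le_NS (Set.mem_singleton v) hy)
        intro u hu w hw
        rw [Set.mem_singleton_iff] at hw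
        rw [hw]
        exact hL (hKL hu) hv (fun e => hvK (e ▸ hu))
      rw [Subgroup.mem_normalizer_iff]
      intro c
      constructor
      · intro hc
        have h5 : y * c * y⁻¹ = c := by
          rw [← hcomm c hc]
          group
        rw [h5]
        exact hc
      · intro hc
        have h6 := hcomm _ hc
        have h8 : y * c = y * (y * c * y⁻¹) := by
          rw [← h6]
          group
        have h7 : c = y * c * y⁻¹ := mul_left_cancel h8
        rw [h7]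
        exact hc
  exact (Subgroup.mem_normalizer_iff.1 (h1 hs) x).1 hx

/-- conjugation by `c` which maps the subgroup of `K` into the subgroup of a clique containing `K` -/
theorem conj_stab (h : IsGraphProduct Γ A) {K L : Set V} (hL : Γ.IsClique L) (hKL : K ⊆ L)
    {c : N} (hc : ∀ x ∈ NS A K, c⁻¹ * x * c ∈ NS A L) :
    (∀ x ∈ NS A K, c⁻¹ * x * c ∈ NS A K) ∧ ∀ x ∈ NS A K, c * x * c⁻¹ ∈ NS A K := by
  obtain ⟨ρ, r1, r2, r3⟩ := exists_rho h.pairSystem L
  have hfix := rho_fix r1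
  have key : ∀ x ∈ NS A K, c⁻¹ * x * c = (ρ c)⁻¹ * x * ρ c := by
    intro x hx
    have h1 := hfix _ (hc x hx)
    rw [map_mul, map_mul, map_inv, hfix x (NS_mono hKL hx)] at h1
    exact h1.symm
  have h1 : ∀ x ∈ NS A K, c⁻¹ * x * c ∈ NS A K := by
    intro x hx
    rw [key x hx]
    have h2 := clique_conj h hL hKL ((NS A L).inv_mem (r3 c)) hx
    rwa [inv_inv] at h2
  refine ⟨h1, fun x hx => ?_⟩
  have h2 := clique_conj h hL hKL (r3 c) hx
  have h3 := key _ h2
  have h4 : (ρ c)⁻¹ * (ρ c * x * (ρ c)⁻¹) * ρ c = x := by group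
  rw [h4] at h3
  have h5 : c * x * c⁻¹ = ρ c * x * (ρ c)⁻¹ := by
    have h6 : c * (c⁻¹ * (ρ c * x * (ρ c)⁻¹) * c) * c⁻¹ = ρ c * x * (ρ c)⁻¹ := by group
    rw [h3] at h6
    exact h6
  rw [h5]
  exact h2

/-- **automorphisms permute the conjugacy classes of the vertex groups** -/
theorem rigid_inf (h : IsGraphProduct Γ A) (hne : ∀ v, A v ≠ ⊥) (hfa : ∀ v, FA (A v))
    (hfg : ∀ v, Group.FG (A v)) (hz : ∀ v, Centreless (A v)) (hi : ∀ v, Indec (A v))
    (φ : MulAut N) (v : V) : ∃ (w : V) (g : N), ∀ x, x ∈ A v ↔ g⁻¹ * φ x * g ∈ A w := by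
  have hsing : Γ.IsClique ({v} : Set V) := by
    rintro x rfl y rfl hxy
    exact absurd rfl hxy
  obtain ⟨K1, f1, c1, g1, h1⟩ := exists_Sb' h hfa hfg φ (Set.finite_singleton v) hsing
  obtain ⟨φ1, e1⟩ : ∃ φ1 : MulAut N, ∀ x, φ1 x = g1⁻¹ * φ x * g1 :=
    ⟨MulAut.conj g1⁻¹ * φ, fun x => by
      rw [MulAut.mul_apply, MulAut.conj_apply, inv_inv]⟩
  obtain ⟨K2, f2, c2, g2, h2⟩ := exists_Sb' h hfa hfg φ1⁻¹ f1 c1
  obtain ⟨φ2, e2⟩ : ∃ φ2 : MulAut N, ∀ x, φ2 x = φ1 (g2 * x * g2⁻¹) :=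
    ⟨φ1 * MulAut.conj g2, fun x => by rw [MulAut.mul_apply, MulAut.conj_apply]⟩
  have e2' : ∀ x, φ2⁻¹ x = g2⁻¹ * φ1⁻¹ x * g2 := by
    intro x
    apply φ2.injective
    rw [MulAut.apply_inv_self, e2]
    have : g2 * (g2⁻¹ * φ1⁻¹ x * g2) * g2⁻¹ = φ1⁻¹ x := by group
    rw [this, MulAut.apply_inv_self]
  obtain ⟨K3, f3, c3, g3, h3⟩ := exists_Sb' h hfa hfg φ2 f2 c2
  obtain ⟨θ, e3⟩ : ∃ θ : MulAut N, ∀ x, θ x = g3⁻¹ * φ2 x * g3 :=
    ⟨MulAut.conj g3⁻¹ * φ2, fun x => by
      rw [MulAut.mul_apply, MulAut.conj_apply, inv_inv]⟩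
  -- inclusions
  have a0 : ∀ x ∈ NS A K1, g3⁻¹ * x * g3 ∈ NS A K3 := by
    intro x hx
    have hy := h3 _ (h2 x hx)
    rw [← e2' x, MulAut.apply_inv_self] at hy
    exact hy
  have a1 : K1 ⊆ K3 := sub_of_conj h.pairSystem hne a0
  have a2 := conj_stab h c3 a1 a0
  have a3 : ∀ x ∈ NS A K1, θ⁻¹ x ∈ NS A K2 := by
    intro x hx
    have hx' := a2.2 x hx
    have hy := h2 _ hx'
    rw [← e2'] at hy
    have : θ⁻¹ x = φ2⁻¹ (g3 * x * g3⁻¹) := by
      apply θ.injective
      rw [MulAut.apply_inv_self, e3, MulAut.apply_inv_self]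
      group
    rw [this]
    exact hy
  have a4 : ∀ x ∈ NS A {v}, g2⁻¹ * x * g2 ∈ NS A K2 := by
    intro x hx
    have hy := h2 _ (h1 x hx)
    rw [← e1, MulAut.inv_apply_self] at hy
    exact hy
  have a5 : ({v} : Set V) ⊆ K2 := sub_of_conj h.pairSystem hne a4
  have a6 := conj_stab h c2 a5 a4
  have a7 : ∀ x ∈ A v, θ x ∈ NS A K1 := by
    intro x hx
    rw [← NS_single (A := A) v] at hx
    rw [e3, e2]
    refine a2.1 _ ?_
    rw [e1]
    exact h1 _ (a6.2 x hx)
  -- the factors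
  have a8 : ∀ w ∈ K1, ∃ u ∈ K2, ∀ x, x ∈ A u ↔ θ x ∈ A w := by
    intro w hw
    have hw3 := a1 hw
    have : Finite K2 := f2
    obtain ⟨P, hP⟩ : ∃ P : Subgroup ↥(NS A K2), P = ((A w).comap θ.toMonoidHom).subgroupOf
      (NS A K2) := ⟨_, rfl⟩
    obtain ⟨Q, hQ⟩ : ∃ Q : Subgroup ↥(NS A K2), Q = ((NS A (K3 \ {w})).comap
      θ.toMonoidHom).subgroupOf (NS A K2) := ⟨_, rfl⟩
    have hPm : ∀ x : ↥(NS A K2), x ∈ P ↔ θ x ∈ A w := by
      intro x
      rw [hP]
      rfl
    have hQm : ∀ x : ↥(NS A K2), x ∈ Q ↔ θ x ∈ NS A (K3 \ {w}) := by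
      intro x
      rw [hQ]
      rfl
    have hcm := comm_NS h c3 hw3
    obtain ⟨F, hF⟩ : ∃ F : ↥(A w) × ↥(NS A (K3 \ {w})) →* N, ∀ p, F p =
        (p.1 : N) * (p.2 : N) :=
      ⟨MonoidHom.noncommCoprod (A w).subtype (NS A (K3 \ {w})).subtype (fun a b =>
        hcm a a.2 b b.2), fun p => rfl⟩
    have hF3 : NS A K3 ≤ F.range := by
      refine NS_le ?_
      intro u hu y hy
      by_cases huw : u = w
      · subst huw
        refine ⟨(⟨y, hy⟩, 1), ?_⟩
        rw [hF]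
        exact mul_one y
      · have h4 : u ∈ K3 \ {w} := ⟨hu, huw⟩
        refine ⟨(1, ⟨y, le_NS h4 hy⟩), ?_⟩
        rw [hF]
        exact one_mul y
    have hθ : ∀ x ∈ NS A K2, θ x ∈ NS A K3 := by
      intro x hx
      rw [e3]
      exact h3 x hx
    have hback : ∀ y ∈ A w, θ⁻¹ y ∈ NS A K2 := fun y hy => a3 y (le_NS hw hy)
    have e : P ≃* A w := by
      refine MulEquiv.ofBijective ((θ.toMonoidHom.comp ((NS A K2).subtype.comp
        P.subtype)).codRestrict (A w) (fun x => (hPm x.1).1 x.2)) ⟨?_, ?_⟩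
      · intro x y hxy
        have h4 : θ ((x : ↥(NS A K2)) : N) = θ ((y : ↥(NS A K2)) : N) := congrArg Subtype.val hxy
        exact Subtype.ext (Subtype.ext (θ.injective h4))
      · rintro ⟨y, hy⟩
        refine ⟨⟨⟨θ⁻¹ y, hback y hy⟩, (hPm _).2 ?_⟩, ?_⟩
        · show θ (θ⁻¹ y) ∈ A w
          rwa [MulAut.apply_inv_self]
        · apply Subtype.ext
          show θ (θ⁻¹ y) = y
          rw [MulAut.apply_inv_self]
    obtain ⟨u, hu⟩ := factor_eq (gp_restr h K2) (fun a b hab => c2 a.2 b.2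
        (fun e => hab (Subtype.ext e)))
      (fun u => centreless_equiv (Subgroup.subgroupOfEquivOfLe (le_NS u.2)).symm (hz u))
      (fun u => indec_equiv (Subgroup.subgroupOfEquivOfLe (le_NS u.2)).symm (hi u))
      (fun u hu => by
        rw [Subgroup.subgroupOf_eq_bot] at hu
        exact hne u (hu.eq_bot_of_le (le_NS u.2)))
      (P := P) (Q := Q) (by
        rw [eq_top_iff]
        rintro ⟨x, hx⟩ _
        obtain ⟨⟨⟨a, ha⟩, ⟨b, hb⟩⟩, hab⟩ := hF3 (hθ x hx)
        rw [hF] at hab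
        have hab' : a * b = θ x := hab
        have hb' : θ⁻¹ b ∈ NS A K2 := by
          have h4 : θ⁻¹ b = (θ⁻¹ a)⁻¹ * x := by
            apply θ.injective
            rw [MulAut.apply_inv_self, map_mul, map_inv, MulAut.apply_inv_self, ← hab']
            group
          rw [h4]
          exact (NS A K2).mul_mem ((NS A K2).inv_mem (hback a ha)) hx
        have h5 : (⟨x, hx⟩ : ↥(NS A K2)) = ⟨θ⁻¹ a, hback a ha⟩ * ⟨θ⁻¹ b, hb'⟩ := by
          apply Subtype.ext
          apply θ.injective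
          show θ x = θ (θ⁻¹ a * θ⁻¹ b)
          rw [map_mul, MulAut.apply_inv_self, MulAut.apply_inv_self, hab']
        rw [h5]
        refine Subgroup.mul_mem _ (Subgroup.mem_sup_left ?_) (Subgroup.mem_sup_right ?_)
        · rw [hPm]
          show θ (θ⁻¹ a) ∈ A w
          rwa [MulAut.apply_inv_self]
        · rw [hQm]
          show θ (θ⁻¹ b) ∈ NS A (K3 \ {w})
          rwa [MulAut.apply_inv_self]) (by
        rw [eq_bot_iff]
        rintro x ⟨hx1, hx2⟩
        have h4 := (hPm x).1 hx1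
        have h5 := (hQm x).1 hx2
        obtain ⟨r, hr1, hr2⟩ := h.pairSystem.retract w
        have h6 : ∀ y ∈ NS A (K3 \ {w}), r y = y :=
          NS_eq_on (g := MonoidHom.id N) fun u hu y hy => hr2 u hu.2 y hy
        have h7 := h6 _ h5
        rw [hr1 _ h4] at h7
        have h8 : (x : N) = 1 := by
          apply θ.injective
          rw [← h7, map_one]
        exact Subtype.ext h8) (by
        intro a ha b hb
        apply Subtype.ext
        apply θ.injective
        show θ ((a : N) * b) = θ ((b : N) * a)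
        rw [map_mul, map_mul]
        exact hcm _ ((hPm a).1 ha) _ ((hQm b).1 hb))
      (indec_equiv e.symm (hi w)) (by
        intro hbot
        apply hne w
        rw [eq_bot_iff]
        intro y hy
        have h4 : (⟨θ⁻¹ y, hback y hy⟩ : ↥(NS A K2)) ∈ P := by
          rw [hPm]
          show θ (θ⁻¹ y) ∈ A w
          rwa [MulAut.apply_inv_self]
        rw [hbot, Subgroup.mem_bot] at h4
        have h5 : θ⁻¹ y = 1 := congrArg Subtype.val h4
        have h6 := congrArg θ h5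
        rw [MulAut.apply_inv_self, map_one] at h6
        exact h6)
    refine ⟨u, u.2, fun x => ?_⟩
    constructor
    · intro hx
      have h4 : (⟨x, le_NS u.2 hx⟩ : ↥(NS A K2)) ∈ P := by
        rw [hu]
        exact hx
      exact (hPm _).1 h4
    · intro hx
      have h5 := hback _ hx
      rw [MulAut.inv_apply_self] at h5
      have h4 : (⟨x, h5⟩ : ↥(NS A K2)) ∈ P := (hPm _).2 hx
      rw [hu] at h4
      exact h4
  -- the vertex
  obtain ⟨U, hU⟩ : ∃ U : Set V, U = {u | ∃ w ∈ K1, ∀ x, x ∈ A u ↔ θ x ∈ A w} := ⟨_, rfl⟩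
  have a9 : NS A K1 ≤ (NS A U).map θ.toMonoidHom := by
    refine NS_le fun w hw y hy => ?_
    obtain ⟨u, _, hu⟩ := a8 w hw
    have huU : u ∈ U := by
      rw [hU]
      exact ⟨w, hw, hu⟩
    refine ⟨θ⁻¹ y, le_NS huU ((hu _).2 ?_), ?_⟩
    · rwa [MulAut.apply_inv_self]
    · show θ (θ⁻¹ y) = y
      rw [MulAut.apply_inv_self]
  have a10 : ({v} : Set V) ⊆ U := by
    refine sub_of_conj h.pairSystem hne (c := 1) fun x hx => ?_
    rw [NS_single] at hx
    obtain ⟨y, hy, hyx⟩ := a9 (a7 x hx)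
    have h4 : y = x := θ.injective hyx
    have h5 : (1 : N)⁻¹ * x * 1 = x := by group
    rw [h5, ← h4]
    exact hy
  have a11 : v ∈ U := a10 rfl
  rw [hU] at a11
  obtain ⟨w, _, hw⟩ := a11
  refine ⟨w, (φ g2)⁻¹ * g1 * g3, fun x => ?_⟩
  rw [hw x, e3, e2, e1, map_mul, map_mul, map_inv]
  have h4 : g3⁻¹ * (g1⁻¹ * (φ g2 * φ x * (φ g2)⁻¹) * g1) * g3 =
      ((φ g2)⁻¹ * g1 * g3)⁻¹ * φ x * ((φ g2)⁻¹ * g1 * g3) := by group
  rw [h4]

/-- **all extensions whose kernel is a graph product of rigid groups** -/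
theorem rigid_ext {G V : Type} [Group G] {N : Subgroup G} [N.Normal] {Γ : SimpleGraph V}
    {A : V → Subgroup N} (hC : ClosedE C) (hF : FbC C) (h : IsGraphProduct Γ A)
    (hne : ∀ v, A v ≠ ⊥) (hfa : ∀ v, FA (A v)) (hfg : ∀ v, Group.FG (A v))
    (hz : ∀ v, Centreless (A v)) (hi : ∀ v, Indec (A v)) (hE : ∀ v, Ext C (A v))
    (hQ : C (G ⧸ N)) : C G := by
  refine pk_main hC hF h hne ?_ ?_ hQ
  · intro g v
    obtain ⟨w, m, h1⟩ := rigid_inf h hne hfa hfg hz hi (MulAut.conjNormal g) v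
    refine ⟨w, m⁻¹, fun x => ?_⟩
    rw [inv_inv]
    exact h1 x
  · intro v g hg
    have e : A v ≃* Ag A v := (A v).equivMapOfInjective _ N.subtype_injective
    exact ext_cyc hC (ext_equiv e (hE v)) g hg

end Run7.h550.PK
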