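import Pool.Agent.Run7.h550.PK.Ret

/-!
# Graph products over infinite graphs: one step of the filtration (helper550)
-/

set_option autoImplicit false

namespace Run7.h550.PK

open Pool.Agent.Y110.FJ Run7.h550.TK
open Pool.Agent.Y462.SS (Closed)
open Pool.Agent.R684.FP (FbC free_ext cyc_real NC Rel Dat Ct regular mem_Ct mem_NC)
open Pool.Agent.R941.FJ (C_equiv C_le C_cyc)

variable {C : ∀ (G : Type) [Group G], Prop}
variable {N V : Type} [Group N] {Γ : SimpleGraph V} {A : V → Subgroup N}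

/-- the automorphism maps the conjugacy class of `A v` to the one of `A (σ v)` -/
theorem star {φ : MulAut N} {σ : Equiv.Perm V} (hA : PairSystem Γ A)
    (h : ∀ v, Sb A φ {v} {σ v}) (Δ : Finset V) {x : N} (hx : rr hA (↑Δ : Set V) x = 1) :
    rr hA (↑(Δ.map σ.toEmbedding) : Set V) (φ x) = 1 := by
  have h1 := through hA ((rr hA (↑(Δ.map σ.toEmbedding) : Set V)).comp φ.toMonoidHom)
    (Δ := (↑Δ : Set V)) (fun v hv a ha => by
      obtain ⟨g, hg⟩ := h v
      have h2 := hg a (le_NS (Set.mem_singleton v) ha)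
      rw [NS_single] at h2
      have h3 : φ a = g * (g⁻¹ * φ a * g) * g⁻¹ := by group
      show rr hA (↑(Δ.map σ.toEmbedding) : Set V) (φ a) = 1
      rw [h3, map_mul, map_mul, rr_kill hA (v := σ v) ?_ h2, mul_one, map_inv, mul_inv_cancel]
      intro h4
      rw [Finset.mem_coe, Finset.mem_map] at h4
      obtain ⟨u, hu, huv⟩ := h4
      have h5 : u = v := σ.injective huv
      exact hv (Finset.mem_coe.2 (h5 ▸ hu))) x
  have h2 : rr hA (↑(Δ.map σ.toEmbedding) : Set V) (φ (rr hA (↑Δ : Set V) x)) =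
      rr hA (↑(Δ.map σ.toEmbedding) : Set V) (φ x) := h1
  rw [← h2, hx, map_one, map_one]

theorem map_symm (σ : Equiv.Perm V) (Δ : Finset V) :
    (Δ.map σ.symm.toEmbedding).map σ.toEmbedding = Δ := by
  rw [Finset.map_map]
  ext u
  simp

theorem Kn_inv {φ : MulAut N} {σ : Equiv.Perm V} (hA : PairSystem Γ A)
    (h : ∀ v, Sb A φ {v} {σ v}) {n : ℕ} {x : N} (hx : x ∈ Kn hA n) : φ x ∈ Kn hA n := by
  rw [mem_Kn] at hx ⊢
  intro Δ hΔ
  rw [← map_symm σ Δ]
  exact star hA h _ (hx _ (by rwa [Finset.card_map]))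

/-- modulo the next step, `Fd Δ` consists of the elements killed by the other retractions -/
theorem Fd_mod [DecidableEq V] (hA : PairSystem Γ A) {Δ : Finset V} {n : ℕ} (hΔ : Δ.card = n + 1)
    {x : N} (hx : x ∈ Kn hA n)
    (hk : ∀ Δ' : Finset V, Δ'.card = n + 1 → Δ' ≠ Δ → rr hA (↑Δ' : Set V) x = 1) :
    (rr hA (↑Δ : Set V) x)⁻¹ * x ∈ Kn hA (n + 1) := by
  have h1 := rr_mem_Fd hA hΔ hx
  rw [mem_Kn]
  intro Δ' h
  rw [map_mul, map_inv]
  rcases Nat.lt_or_ge Δ'.card (n + 1) with h2 | h2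
  · rw [(mem_Kn hA).1 hx Δ' (by omega), (mem_Kn hA).1 (Fd_le_Kn hA hΔ h1) Δ' (by omega)]
    simp
  · by_cases h3 : Δ' = Δ
    · subst h3
      rw [rr_fix hA h1.1, inv_mul_cancel]
    · have h4 : ¬ Δ ⊆ Δ' := fun h5 => h3 (Finset.eq_of_subset_of_card_le h5 (by omega)).symm
      rw [hk Δ' (by omega) h3, Fd_kill hA h4 h1]
      simp

/-- the data of one step: `H` is a group with a homomorphism from `N` with kernel `Kn (n + 1)`, and
its elements act on `N` by automorphisms which permute the classes of the `A v` -/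
structure Stp {H : Type} [Group H] (hA : PairSystem Γ A) (n : ℕ) (p : N →* H) : Prop where
  ker : ∀ x, p x = 1 ↔ x ∈ Kn hA (n + 1)
  act : ∀ g : H, ∃ (φ : MulAut N) (σ : Equiv.Perm V), (∀ v, Sb A φ {v} {σ v}) ∧
    ∀ x, g * p x * g⁻¹ = p (φ x)

/-- the index set -/
def Ix (hA : PairSystem Γ A) (n : ℕ) : Type := {Δ : Finset V // Δ.card = n + 1 ∧ Fd hA Δ ≠ ⊥}

section stp

variable {H : Type} [Group H] {hA : PairSystem Γ A} {n : ℕ} {p : N →* H}

theorem Stp.eq (s : Stp hA n p) {x y : N} (h : p x = p y) : x⁻¹ * y ∈ Kn hA (n + 1) := by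
  rw [← s.ker, map_mul, map_inv, h, inv_mul_cancel]

theorem Stp.inj [DecidableEq V] (s : Stp hA n p) {Δ : Finset V} (hΔ : Δ.card = n + 1) {x : N}
    (hx : x ∈ Fd hA Δ) (h : p x = 1) : x = 1 := by
  rw [s.ker, mem_Kn] at h
  have h1 := h Δ (by omega)
  rwa [rr_fix hA hx.1] at h1

theorem Stp.nor (s : Stp hA n p) : ((Kn hA n).map p).Normal := by
  refine ⟨fun z hz g => ?_⟩
  obtain ⟨x, hx, rfl⟩ := hz
  obtain ⟨φ, σ, h1, h2⟩ := s.act g
  rw [h2]
  exact ⟨φ x, Kn_inv hA h1 hx, rfl⟩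

/-- conjugation permutes the factors -/
theorem Stp.conj [DecidableEq V] (s : Stp hA n p) (g : H) : ∃ σ : Equiv.Perm V,
    ∀ Δ : Finset V, Δ.card = n + 1 → ∀ x ∈ Fd hA Δ,
      g * p x * g⁻¹ ∈ (Fd hA (Δ.map σ.toEmbedding)).map p := by
  obtain ⟨φ, σ, h1, h2⟩ := s.act g
  refine ⟨σ, fun Δ hΔ x hx => ?_⟩
  rw [h2]
  have h3 : (Δ.map σ.toEmbedding).card = n + 1 := by rwa [Finset.card_map]
  have h4 : φ x ∈ Kn hA n := Kn_inv hA h1 (Fd_le_Kn hA hΔ hx)
  have h5 := Fd_mod hA h3 h4 (by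
    intro Δ' h6 h7
    rw [← map_symm σ Δ']
    refine star hA h1 _ (Fd_kill hA (fun h8 => h7 ?_) hx)
    have h9 : Δ = Δ'.map σ.symm.toEmbedding :=
      Finset.eq_of_subset_of_card_le h8 (by rw [Finset.card_map]; omega)
    rw [h9, map_symm])
  refine ⟨rr hA (↑(Δ.map σ.toEmbedding) : Set V) (φ x), rr_mem_Fd hA h3 h4, ?_⟩
  rw [← s.ker, map_mul, map_inv, inv_mul_eq_one] at h5
  exact h5

/-- the normal closure of the other factors -/
theorem Stp.nc [DecidableEq V] (s : Stp hA n p) (i : Ix hA n) :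
    NC ((Kn hA n).map p) (fun i : Ix hA n => (Fd hA i.1).map p) i ≤
      (Kn hA n ⊓ (rr hA (↑i.1 : Set V)).ker).map p := by
  rw [NC, Subgroup.closure_le]
  rintro _ ⟨j, hj, m, ⟨y, hy, rfl⟩, b, ⟨x, hx, rfl⟩, rfl⟩
  refine ⟨y * x * y⁻¹, ⟨?_, ?_⟩, by rw [map_mul, map_mul, map_inv]⟩
  · exact (Kn hA n).mul_mem ((Kn hA n).mul_mem hy (Fd_le_Kn hA j.2.1 hx)) ((Kn hA n).inv_mem hy)
  · show rr hA (↑i.1 : Set V) (y * x * y⁻¹) = 1
    have h1 : ¬ j.1 ⊆ i.1 := fun h2 => hj (Subtype.ext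
      (Finset.eq_of_subset_of_card_le h2 (by rw [i.2.1, j.2.1])))
    rw [map_mul, map_mul, Fd_kill hA h1 hx, mul_one, map_inv, mul_inv_cancel]

theorem Stp.sup_mem [DecidableEq V] (s : Stp hA n p) (D : Finset (Finset V)) :
    ∀ x ∈ Kn hA n, (∀ Δ : Finset V, Δ.card = n + 1 → Δ ∉ D → rr hA (↑Δ : Set V) x = 1) →
      p x ∈ ⨆ i : Ix hA n, (Fd hA i.1).map p := by
  induction D using Finset.induction_on with
  | empty =>
    intro x hx h
    have h1 : p x = 1 := by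
      rw [s.ker, mem_Kn]
      intro Δ hΔ
      rcases Nat.lt_or_ge Δ.card (n + 1) with h2 | h2
      · exact (mem_Kn hA).1 hx Δ (by omega)
      · exact h Δ (by omega) (Finset.notMem_empty Δ)
    rw [h1]
    exact one_mem _
  | insert Δ D _ ih =>
    intro x hx h
    by_cases hΔ : Δ.card = n + 1
    · have h1 := rr_mem_Fd hA hΔ hx
      have h2 := ih ((rr hA (↑Δ : Set V) x)⁻¹ * x) (mul_mem (inv_mem (Fd_le_Kn hA hΔ h1)) hx) (by
        intro Δ' h3 h4
        rw [map_mul, map_inv]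
        by_cases h5 : Δ' = Δ
        · subst h5
          rw [rr_fix hA h1.1, inv_mul_cancel]
        · have h6 : ¬ Δ ⊆ Δ' := fun h7 =>
            h5 (Finset.eq_of_subset_of_card_le h7 (by omega)).symm
          rw [Fd_kill hA h6 h1, h Δ' h3 (by
            rw [Finset.mem_insert]
            rintro (h7 | h7)
            · exact h5 h7
            · exact h4 h7)]
          simp)
      have h3 : p x = p (rr hA (↑Δ : Set V) x) * p ((rr hA (↑Δ : Set V) x)⁻¹ * x) := by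
        rw [← map_mul, mul_inv_cancel_left]
      rw [h3]
      refine mul_mem ?_ h2
      by_cases h4 : Fd hA Δ = ⊥
      · rw [h4, Subgroup.mem_bot] at h1
        rw [h1, map_one]
        exact one_mem _
      · exact Subgroup.mem_iSup_of_mem (⟨Δ, hΔ, h4⟩ : Ix hA n) ⟨_, h1, rfl⟩
    · refine ih x hx fun Δ' h3 h4 => h Δ' h3 ?_
      rw [Finset.mem_insert]
      rintro (h7 | h7)
      · exact hΔ (h7 ▸ h3)
      · exact h4 h7

theorem Stp.dat [DecidableEq V] (s : Stp hA n p) :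
    Dat ((Kn hA n).map p) (fun i : Ix hA n => (Fd hA i.1).map p) where
  nor := s.nor
  ne := by
    rintro ⟨Δ, hΔ, hne⟩ h1
    apply hne
    rw [eq_bot_iff]
    intro x hx
    have h2 : p x ∈ (Fd hA Δ).map p := ⟨x, hx, rfl⟩
    have h3 : (Fd hA Δ).map p = ⊥ := h1
    rw [h3, Subgroup.mem_bot] at h2
    exact s.inj hΔ hx h2
  sup := by
    apply le_antisymm
    · exact iSup_le fun i => Subgroup.map_mono (Fd_le_Kn hA i.2.1)
    · rintro _ ⟨x, hx, rfl⟩
      obtain ⟨S, hS⟩ := exists_fin hA x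
      refine s.sup_mem S.powerset x hx ?_
      intro Δ hΔ h1
      rw [Finset.mem_powerset] at h1
      have h2 : x = rr hA (↑S : Set V) x := (rr_fix hA hS).symm
      rw [h2, rr_rr]
      have h3 : (↑Δ ∩ ↑S : Set V) = ↑(Δ ∩ S) := by simp
      rw [h3]
      refine (mem_Kn hA).1 hx _ ?_
      have h4 : Δ ∩ S ⊂ Δ := ⟨Finset.inter_subset_left, fun h5 => h1 fun v hv =>
        (Finset.mem_inter.1 (h5 hv)).2⟩
      have h5 := Finset.card_lt_card h4
      omega
  reg := by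
    intro i
    rw [eq_bot_iff]
    rintro z ⟨hz1, hz2⟩
    obtain ⟨x, hx, rfl⟩ := hz1
    obtain ⟨y, ⟨-, hy⟩, hxy⟩ := s.nc i hz2
    have h1 := (mem_Kn hA).1 (s.eq hxy) i.1 (by rw [i.2.1])
    have h2 : rr hA (↑i.1 : Set V) y = 1 := hy
    rw [map_mul, map_inv, h2, inv_one, one_mul, rr_fix hA hx.1] at h1
    rw [Subgroup.mem_bot, h1, map_one]
  perm := by
    intro g i
    obtain ⟨σ, h1⟩ := s.conj g
    obtain ⟨τ, h2⟩ := s.conj g⁻¹
    obtain ⟨Δ, hΔ, hne⟩ := i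
    have h3 : (Δ.map σ.toEmbedding).card = n + 1 := by rwa [Finset.card_map]
    -- a nontrivial element
    obtain ⟨⟨x, hx⟩, hx0⟩ := Subgroup.ne_bot_iff_exists_ne_one.1 hne
    have hx1 : x ≠ 1 := fun h => hx0 (Subtype.ext h)
    obtain ⟨y, hy, hxy⟩ := h1 Δ hΔ x hx
    have hy1 : y ≠ 1 := by
      rintro rfl
      rw [map_one] at hxy
      apply hx1
      refine s.inj hΔ hx ?_
      have h4 : p x = g⁻¹ * (g * p x * g⁻¹) * g := by group
      rw [h4, ← hxy]
      group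
    have hne' : Fd hA (Δ.map σ.toEmbedding) ≠ ⊥ := by
      intro h4
      rw [h4] at hy
      exact hy1 hy
    -- the inverse permutation
    have h5 : (Δ.map σ.toEmbedding).map τ.toEmbedding = Δ := by
      obtain ⟨z, hz, hyz⟩ := h2 _ h3 y hy
      have h6 : p z = p x := by
        rw [hyz, hxy]
        group
      by_contra h7
      have h8 : ((Δ.map σ.toEmbedding).map τ.toEmbedding).card = n + 1 := by
        rwa [Finset.card_map]
      have h9 := (mem_Kn hA).1 (s.eq h6) Δ (by omega)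
      rw [map_mul, map_inv, Fd_kill hA (fun h10 => h7
        (Finset.eq_of_subset_of_card_le h10 (by omega))) hz, inv_one, one_mul,
        rr_fix hA hx.1] at h9
      exact hx1 h9
    refine ⟨⟨Δ.map σ.toEmbedding, h3, hne'⟩, 1, one_mem _, fun z => ?_⟩
    have h6 : (1 : H) * (g * z * g⁻¹) * 1⁻¹ = g * z * g⁻¹ := by group
    rw [h6]
    constructor
    · rintro ⟨x, hx, rfl⟩
      exact h1 Δ hΔ x hx
    · rintro ⟨x, hx, hxz⟩
      have h7 := h2 _ h3 x hx
      rw [h5, hxz] at h7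
      have h8 : g⁻¹ * (g * z * g⁻¹) * g⁻¹⁻¹ = z := by group
      rwa [h8] at h7

theorem Stp.ct [DecidableEq V] (s : Stp hA n p) :
    Ct ((Kn hA n).map p) (fun i : Ix hA n => (Fd hA i.1).map p) = ⊥ := by
  rw [eq_bot_iff]
  intro z hz
  rw [mem_Ct] at hz
  obtain ⟨⟨x, hx, rfl⟩, h1⟩ := hz
  rw [Subgroup.mem_bot, s.ker, mem_Kn]
  intro Δ hΔ
  rcases Nat.lt_or_ge Δ.card (n + 1) with h2 | h2
  · exact (mem_Kn hA).1 hx Δ (by omega)
  · have h3 : Δ.card = n + 1 := by omega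
    have h4 := rr_mem_Fd hA h3 hx
    by_cases h5 : Fd hA Δ = ⊥
    · rw [h5, Subgroup.mem_bot] at h4
      exact h4
    · obtain ⟨y, ⟨-, hy⟩, hxy⟩ := s.nc ⟨Δ, h3, h5⟩ (h1 _)
      have h6 := (mem_Kn hA).1 (s.eq hxy) Δ hΔ
      have h7 : rr hA (↑Δ : Set V) y = 1 := hy
      rwa [map_mul, map_inv, h7, inv_one, one_mul] at h6

/-- **one step** -/
theorem Stp.main [DecidableEq V] (hC : ClosedE C) (s : Stp hA n p)
    (hE : ∀ Δ : Finset V, Δ.card = n + 1 → Fd hA Δ ≠ ⊥ → Ext C ↥(Fd hA Δ))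
    [((Kn hA n).map p).Normal] (hQ : C (H ⧸ (Kn hA n).map p)) : C H := by
  refine regular hC s.dat ?_ ?_ hQ
  · intro g
    rw [s.ct, bot_sup_eq]
    exact C_cyc hC.base g
  · intro i g hg
    refine ext_cyc hC ?_ g hg
    have hinj : Function.Injective (p.comp (Fd hA i.1).subtype) := by
      rw [injective_iff_map_eq_one]
      intro x hx
      exact Subtype.ext (s.inj i.2.1 x.2 hx)
    have e : ↥(Fd hA i.1) ≃* ↥((Fd hA i.1).map p) := by
      refine MulEquiv.ofBijective (p.subgroupMap (Fd hA i.1)) ⟨?_,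
        MonoidHom.subgroupMap_surjective _ _⟩
      rw [injective_iff_map_eq_one]
      intro x hx
      exact Subtype.ext (s.inj i.2.1 x.2 (congrArg Subtype.val hx))
    exact ext_equiv e (hE i.1 i.2.1 i.2.2)

end stp

end Run7.h550.PK
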